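import Pool.Agent.Work.MP_85f2da_an.Bd.B01

set_option autoImplicit false

/-!
# MP_85f2da_an: statements of parts A (Lagrangian), B (calibration), C (energy argument), E, N
-/

open MeasureTheory Filter Set Metric
open scoped ENNReal Topology ContDiff

namespace Pool.Agent.Work.MP_85f2da_an

variable {d : ℕ}

/-! ### Part A: the Lagrangian -/

/-- second derivative -/
noncomputable def Hs (Λ : (Fin d → ℝ) → ℝ) (p ξ : Fin d → ℝ) : ℝ :=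
  fderiv ℝ (fun q => fderiv ℝ Λ q ξ) p ξ

/-- A1 -/
def ASmooth : Prop := ∀ δ : ℝ, 0 < δ → ContDiff ℝ ((⊤ : ℕ∞) : WithTop ℕ∞) (Lam4 δ)

/-- A2 -/
def AHess : Prop := ∀ δ : ℝ, 0 < δ → δ ≤ 1 / 1000 → ∃ M : ℝ, 0 < M ∧ ∀ p ξ : Fin 4 → ℝ,
  1 / 1000 * sq ξ ≤ Hs (Lam4 δ) p ξ ∧ Hs (Lam4 δ) p ξ ≤ M * sq ξ

/-- A3: from Hessian bounds to the data -/
def ADat : Prop := ∀ (d : ℕ) (Λ : (Fin d → ℝ) → ℝ) (m0 M0 : ℝ), ContDiff ℝ 2 Λ → 0 < m0 →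
  0 < M0 → (∀ p ξ, m0 * sq ξ ≤ Hs Λ p ξ ∧ Hs Λ p ξ ≤ M0 * sq ξ) → Λ 0 = 0 → gr Λ 0 = 0 →
  Continuous (gr Λ) ∧
  (∀ p, m0 / 2 * sq p ≤ Λ p) ∧ (∀ p, Λ p ≤ M0 / 2 * sq p) ∧
  (∀ p q, Λ ((1 / 2 : ℝ) • (p + q)) ≤ (Λ p + Λ q) / 2 - m0 / 8 * sq (p - q)) ∧
  (∀ p ξ, |Λ (p + ξ) - Λ p - dot (gr Λ p) ξ| ≤ M0 / 2 * sq ξ) ∧
  (∀ p q, m0 * sq (p - q) ≤ dot (gr Λ p - gr Λ q) (p - q)) ∧
  (∀ p q, sq (gr Λ p - gr Λ q) ≤ M0 ^ 2 * sq (p - q))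

/-- A4: the potential -/
def APot : Prop := (∀ v, 0 ≤ Fv v) ∧ (∀ v, Fv v ≤ 1) ∧ Fv 0 = 0 ∧ Fv 1 = 0 ∧
  ContDiff ℝ ((⊤ : ℕ∞) : WithTop ℕ∞) Fv ∧ (∀ v, Fv (v + 1) = Fv v) ∧
  (∀ v s, |Fv (v + s) - Fv v - deriv Fv v * s| ≤ 1 / 2 * s ^ 2) ∧
  (∀ v w, |deriv Fv v - deriv Fv w| ≤ |v - w|) ∧ (∀ v, |deriv Fv v| ≤ 1) ∧
  (∀ v, |deriv (deriv Fv) v| ≤ 1)

/-- A5 -/
def ADatEx : Prop := ∀ δ : ℝ, 0 < δ → δ ≤ 1 / 1000 →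
  ∃ D : Dat 4, D.Lam = Lam4 δ ∧ D.F = Fv

/-- the anisotropic part as a function of the lengths -/
noncomputable def lamr (δ α β : ℝ) : ℝ :=
  (α ^ 2 + β ^ 2) / 4
    + 99 / 400 * (Real.sqrt ((α ^ 2 - β ^ 2) ^ 2 + δ ^ 2 * (1 + α ^ 2 + β ^ 2) ^ 2)
      - δ * (1 + α ^ 2 + β ^ 2))

/-- A6: dual bound -/
def ADual : Prop := ∀ δ y P Q α β : ℝ, 0 < δ → δ ≤ 1 / 1000 → |y| ≤ 19 / 20 → 0 ≤ α → 0 ≤ β →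
  |P| * α + |Q| * β ≤ lamr δ α β
    + (P ^ 2 / (1 + y - 2 * δ * y ^ 2) + Q ^ 2 / (1 - y - 2 * δ * y ^ 2) + δ * y ^ 2 / 2)

/-- A7: cost in normal and tangential components -/
def ACost : Prop := ∀ δ y N T : ℝ, 0 < δ → δ ≤ 1 / 1000 → |y| ≤ 19 / 20 →
  ((N + T) / 2) ^ 2 / (1 + y - 2 * δ * y ^ 2) + ((N - T) / 2) ^ 2 / (1 - y - 2 * δ * y ^ 2)
    ≤ N ^ 2 / 2 + (T - y * N) ^ 2 / (2 * (1 - y ^ 2)) + 4000 * δ * y ^ 2 * (N ^ 2 + T ^ 2)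

/-! ### Part B: functions of the level -/

/-- B1 -/
def BHh : Prop := ∀ t : ℝ, 0 < hh t ∧ Real.exp (-|t|) / Real.pi ≤ hh t ∧
  hh t ≤ 2 / Real.pi * Real.exp (-|t|) ∧ hh t ≤ 1 / Real.pi

/-- B2 -/
def BCoef : Prop := ∀ t : ℝ, 0 ≤ xx t ∧ xx t ≤ 7 / 6 ∧ xx t ≤ 35 * hh t ^ 2 ∧
  |bb t| ≤ 2 / 3 ∧ 0 ≤ cc t ∧ cc t ≤ 2 * (1 + 2 * |t|)

/-- B3: the profile -/
def BProf : Prop := (∀ t, HasDerivAt gv (hh t) t) ∧ (∀ t, 0 < gv t ∧ gv t < 1) ∧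
  (∀ t, tauv (gv t) = t) ∧ (∀ v, 0 < v → v < 1 → gv (tauv v) = v) ∧ (∀ t, hv (gv t) = hh t) ∧
  ContinuousOn tauv (Ioo 0 1) ∧ Tendsto gv atBot (𝓝 0) ∧ Tendsto gv atTop (𝓝 1) ∧
  (∀ t, 0 ≤ 1 - gv t ∧ 1 - gv t ≤ Real.exp (-t)) ∧ (∀ t, gv t ≤ Real.exp t)

/-- values of the primitives -/
noncomputable def KD (t : ℝ) : ℝ := -(3 / 4 * hh t ^ 2 * bb t)

noncomputable def K4 (t : ℝ) : ℝ := hh t ^ 2 * (-2 * t * bb t + cc t)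

noncomputable def K5 (t : ℝ) : ℝ := hh t ^ 2 * (-(t * cc t) + t ^ 2 * bb t)

/-- B4 -/
def BDer : Prop := (∀ t, HasDerivAt KD (hh t * (kt 0 t - kt 1 t)) t) ∧
  (∀ t, HasDerivAt K4 (hh t * kt 4 t) t) ∧ (∀ t, HasDerivAt K5 (hh t * kt 5 t) t)

/-- B5 -/
def BBd : Prop := ∃ C : ℝ, 0 < C ∧ (∀ (i : Fin 6) (t : ℝ), |kt i t| ≤ C * hh t * (1 + |t|) ^ 3) ∧
  (∀ t : ℝ, |KD t| ≤ C * hh t ^ 2 ∧ |K4 t| ≤ C * hh t ^ 2 * (1 + |t|) ∧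
    |K5 t| ≤ C * hh t ^ 2 * (1 + |t|) ^ 2)

/-- B6 -/
def BCont : Prop := ∀ i : Fin 6, Continuous (kp i)

/-- B7 -/
def BPrim : Prop := (∀ (i : Fin 6) (v : ℝ), HasDerivAt (kk i) (kp i v) v) ∧
  (∀ (i : Fin 6) (v : ℝ), v ≤ 0 → kk i v = 0) ∧
  (∀ t, kk 0 (gv t) - kk 1 (gv t) = KD t) ∧ (∀ t, kk 4 (gv t) = K4 t) ∧
  (∀ t, kk 5 (gv t) = K5 t) ∧
  (∀ v, 1 ≤ v → kk 0 v - kk 1 v = 0 ∧ kk 4 v = 0 ∧ kk 5 v = 0) ∧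
  ∃ C : ℝ, ∀ (i : Fin 6) (v : ℝ), |kk i v| ≤ C ∧ |kp i v| ≤ C

/-! ### Part B: the polynomial inequality -/

/-- reduced normal component -/
noncomputable def sN (w σ x b e c : ℝ) : ℝ :=
  (8 * (1 - w ^ 2) ^ 2 - 5 * (1 - w ^ 2) ^ 3) / 3
    + 8 / 3 * x * σ * w * (6 * (1 - w ^ 2) - 5 * (1 - w ^ 2) ^ 2)
    - σ ^ 2 * (4 / 3 * x + 1) * (6 * (1 - w ^ 2) - 5 * (1 - w ^ 2) ^ 2)
    + w * (1 - w ^ 2) ^ 2 * (-2 * b * e + 8 / 3 * σ * (1 - x) - 2 * σ)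
    + (1 - w ^ 2) ^ 2 * (-c * e ^ 2 + 2 * σ ^ 2 + 2 * σ * b * e - 4 / 3 * σ ^ 2 * (1 - x))

/-- reduced tangential component -/
noncomputable def sT (w σ x : ℝ) : ℝ :=
  8 / 3 * x * w * (1 - w ^ 2) ^ 2
    - 8 / 3 * x * σ * ((1 - w ^ 2) ^ 2 - 6 * w ^ 2 * (1 - w ^ 2))
    - 6 * w * (1 - w ^ 2) * σ ^ 2 * (4 / 3 * x + 1)

/-- reduced zero order term -/
noncomputable def s0 (w σ b e c : ℝ) : ℝ :=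
  2 * b * e * w * (1 - w ^ 2) * (6 - 5 * (1 - w ^ 2))
    + (-2 * σ * b * e + c * e ^ 2) * ((1 - w ^ 2) ^ 2 - 6 * w ^ 2 * (1 - w ^ 2))
    - 6 * w * (1 - w ^ 2) * (-(σ * c * e ^ 2) + σ ^ 2 * b * e)

/-- the reduced slack for the parameter `y` -/
noncomputable def sl (w σ x b e c y : ℝ) : ℝ :=
  1 / 2 - sN w σ x b e c ^ 2 / 2
    - (sT w σ x - y * sN w σ x b e c) ^ 2 / (2 * (1 - y ^ 2)) - s0 w σ b e c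

/-- P1: macroscopic inequality, `y = min (x ρ) (19/20)`, `ρ = 8 w / (3 + 5 w^2)` -/
def PMac : Prop := ∀ w x : ℝ, 0 ≤ w → w ≤ 1 → 0 ≤ x → x ≤ 7 / 6 →
  3 / 10 * w ^ 2 ≤ sl w 0 x 0 0 0 (min (x * (8 * w / (3 + 5 * w ^ 2))) (19 / 20))

/-- P2: far from the cone -/
def PFar : Prop := ∀ w0 : ℝ, 0 < w0 → ∃ η : ℝ, 0 < η ∧ ∀ w σ x b e c : ℝ, w0 ≤ |w| → |w| ≤ 1 →
  |σ| ≤ η → 0 < e → e ≤ η → 0 ≤ x → x ≤ 7 / 6 → |b| ≤ 2 / 3 → 0 ≤ c → c * e ≤ 2 * e + 4 * |σ| →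
  ∃ y : ℝ, |y| ≤ 19 / 20 ∧ |y| ≤ 3 * x * |w - σ| ∧ 1 / 4 * (w - σ) ^ 2 ≤ sl w σ x b e c y

/-- P3: near the cone -/
def PNear : Prop := ∃ η C : ℝ, 0 < η ∧ 0 < C ∧ ∀ w σ x b e c : ℝ, |w| ≤ η →
  |σ| ≤ η → 0 < e → e ≤ η → 0 ≤ x → x ≤ 7 / 6 → |b| ≤ 2 / 3 → 0 ≤ c → c * e ≤ 2 * e + 4 * |σ| →
  ∃ y : ℝ, |y| ≤ 19 / 20 ∧ |y| ≤ 3 * x * |w - σ| ∧
    1 / 4 * (w - σ) ^ 2 - C * (e ^ 2 + σ ^ 2) ^ 2 ≤ sl w σ x b e c y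

/-- P4: on the diagonal -/
def PDiag : Prop := ∃ C : ℝ, 0 < C ∧ ∀ w x b e c : ℝ, |w| ≤ 1 → 0 < e → e ≤ 1 → 0 ≤ x →
  x ≤ 7 / 6 → |b| ≤ 2 / 3 → 0 ≤ c → c * e ≤ 2 * e + 4 * |w| →
  |1 - sN w w x b e c - s0 w w b e c| ≤ C * (e ^ 2 + w ^ 2) ^ 2

/-! ### Part B: the pointwise inequality in the variables `(R, a, t)` -/

noncomputable def SN (R a t : ℝ) : ℝ := ∑ i, kt i t * fN i R a

noncomputable def ST (R a t : ℝ) : ℝ := ∑ i, kt i t * fT i R a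

noncomputable def S0 (R a t : ℝ) : ℝ := KD t * fD 0 R a + K4 t * fD 4 R a + K5 t * fD 5 R a

/-- Q1: reduction to the polynomials -/
def QRed : Prop := ∀ R a t : ℝ, 0 < R →
  SN R a t = hh t * sN (a / R) (t / R) (xx t) (bb t) (1 / R) (cc t) ∧
  ST R a t = hh t * sT (a / R) (t / R) (xx t) ∧
  S0 R a t = hh t ^ 2 * s0 (a / R) (t / R) (bb t) (1 / R) (cc t)

/-- the main pointwise inequality -/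
def QMain (δ : ℝ) : Prop := ∃ η C : ℝ, 0 < η ∧ η ≤ 1 / 8 ∧ 0 < C ∧
  ∀ R a t ζ α β : ℝ, 1 ≤ η * R → |a| ≤ R → |t| ≤ η * R → 0 ≤ ζ → ζ ≤ 1 → 0 ≤ α → 0 ≤ β →
  (|SN R a t + ST R a t| / 2 + ζ * hh t) * α + (|SN R a t - ST R a t| / 2 + ζ * hh t) * β
      + S0 R a t
    ≤ hh t ^ 2 / 2 + lamr δ α β
      - hh t ^ 2 * (1 / 5 * ((a - t) / R) ^ 2 - C * ((1 + t ^ 2) / R ^ 2) ^ 2 - C * ζ)

/-- Q2: existence of `δ` -/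
def QMainEx : Prop := ∃ δ : ℝ, 0 < δ ∧ δ ≤ 1 / 1000 ∧ QMain δ

/-- Q3: crude bound -/
def QCrude : Prop := ∃ C : ℝ, 0 < C ∧ ∀ δ R a t ζ α β : ℝ, 0 < δ → δ ≤ 1 / 1000 → 2 ≤ R →
  |a| ≤ R → 0 ≤ ζ → ζ ≤ 1 → 0 ≤ α → 0 ≤ β →
  (|SN R a t + ST R a t| / 2 + ζ * hh t) * α + (|SN R a t - ST R a t| / 2 + ζ * hh t) * β
      + S0 R a t
    ≤ hh t ^ 2 / 2 + lamr δ α β + C * (hh t ^ 2 * (1 + |t|) ^ 6)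

/-- Q4: scalar estimates -/
def QScal : Prop := ∀ C η : ℝ, 0 < C → 0 < η → ∃ C' : ℝ, 0 < C' ∧ ∀ R a t : ℝ, 2 ≤ R →
  |a| ≤ R →
  hh t ^ 2 * (C * ((1 + t ^ 2) / R ^ 2) ^ 2 - 1 / 5 * ((a - t) / R) ^ 2)
    ≤ C' * (Real.exp (-|a|) / R ^ 4 + 1 / R ^ 8) ∧
  (η * R < |t| → C * (hh t ^ 2 * (1 + |t|) ^ 6) ≤ C' * (1 / R ^ 8)) ∧
  hh t ^ 2 * (C * ((1 + t ^ 2) / R ^ 2) ^ 2 - η) ≤ C' * (1 / R ^ 8) ∧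
  hh t ^ 2 * (1 + |t|) ^ 6 ≤ C' ∧
  C * (hh a ^ 2 * ((1 + a ^ 2) / R ^ 2) ^ 2) ≤ C' * (Real.exp (-|a|) / R ^ 4)

/-- the pointwise inequalities with integrable error -/
def QFin (δ : ℝ) : Prop := ∃ C c3 : ℝ, 0 < C ∧ 0 < c3 ∧ ∀ R a t α β : ℝ, 2 ≤ R → |a| ≤ R →
  0 ≤ α → 0 ≤ β →
  (|SN R a t + ST R a t| / 2 * α + |SN R a t - ST R a t| / 2 * β + S0 R a t
    ≤ hh t ^ 2 / 2 + lamr δ α β + C * (Real.exp (-|a|) / R ^ 4 + 1 / R ^ 8)) ∧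
  (1 / 4 ≤ |a| / R → |a| / R ≤ 1 / 3 →
    (|SN R a t + ST R a t| / 2 + c3 * hh t) * α + (|SN R a t - ST R a t| / 2 + c3 * hh t) * β
      + S0 R a t ≤ hh t ^ 2 / 2 + lamr δ α β + C * (1 / R ^ 8)) ∧
  |hh a ^ 2 - hh a * SN R a a - S0 R a a| ≤ C * (Real.exp (-|a|) / R ^ 4 + 1 / R ^ 8)

/-- Q5 -/
def QFinP : Prop := ∀ δ : ℝ, 0 < δ → δ ≤ 1 / 1000 → QMain δ → QFin δ

/-! ### Part C: fields on `ℝ^4` -/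

/-- C1: the fields are locally Lipschitz -/
def CLip : Prop := ∀ (i : Fin 6) (ρ : ℝ), ∃ K, LipschitzOnWith K (Ec i) (closedBall 0 ρ)

/-- C2: divergence -/
def CDiv : Prop := ∀ (i : Fin 6) (z : Fin 4 → ℝ), 0 < nx z → 0 < ny z →
  DifferentiableAt ℝ (Ez i) z ∧ dv (Ez i) z = fD i (Rz z) (az z)

/-- C3: away from the cut off -/
def CCut : Prop := ∀ (i : Fin 6) (z : Fin 4 → ℝ), 2 < Rz z →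
  (Ec i z = Ez i z ∧ dv (Ec i) z = dv (Ez i) z)

/-- C4: bounds -/
def CBd : Prop := ∃ C : ℝ, 0 < C ∧ ∀ (i : Fin 6) (z : Fin 4 → ℝ), (∀ j, |Ec i z j| ≤ C) ∧
  (0 < nx z → 0 < ny z → |dv (Ec i) z| ≤ C)

/-- C5: null sets -/
def CNull : Prop := ∀ᵐ z : Fin 4 → ℝ, 0 < nx z ∧ 0 < ny z

/-- C6: the boundary function -/
def CW : Prop := Lip wz ∧ (∀ z, 0 ≤ wz z ∧ wz z ≤ 1) ∧
  ∀ z, 0 < nx z → 0 < ny z → gr wz z = hh (az z) •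
    ![z 0 / nx z, z 1 / nx z, -(z 2 / ny z), -(z 3 / ny z)]

/-- C7: the error is integrable -/
def CInt : Prop := IntegrableOn VV {z | 2 < Rz z}

/-- C8: the null Lagrangian lemma, general dimension -/
def CNullLag : Prop := ∀ (d : ℕ) (k k' : ℝ → ℝ) (E : (Fin d → ℝ) → (Fin d → ℝ))
  (u w : (Fin d → ℝ) → ℝ) (ρ : ℝ), (∀ v, HasDerivAt k (k' v) v) → Continuous k' →
  (∀ r, ∃ K, LipschitzOnWith K E (closedBall 0 r)) → Lip u → Lip w →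
  (∀ x, x ∉ closedBall 0 ρ → u x = w x) →
  IntegrableOn (fun x => k' (u x) * dot (E x) (gr u x) + k (u x) * dv E x) (closedBall 0 ρ) ∧
  ∫ x in closedBall 0 ρ, (k' (u x) * dot (E x) (gr u x) + k (u x) * dv E x)
    = ∫ x in closedBall 0 ρ, (k' (w x) * dot (E x) (gr w x) + k (w x) * dv E x)

/-- the sector -/
def Zs : Set (Fin 4 → ℝ) := {z | 2 < Rz z ∧ 1 / 4 ≤ |az z| / Rz z ∧ |az z| / Rz z ≤ 1 / 3}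

/-- the calibration inequalities on `ℝ^4` -/
def Cal (δ : ℝ) : Prop := ∃ C c3 : ℝ, 0 < C ∧ 0 < c3 ∧ ∀ (z : Fin 4 → ℝ), 0 < nx z → 0 < ny z →
  (∀ (v : ℝ) (p : Fin 4 → ℝ), 0 ≤ v → v ≤ 1 →
    NN z v p ≤ Lam4 δ p + Fv v + C * (if 2 < Rz z then VV z else 1)) ∧
  (∀ (v : ℝ) (p : Fin 4 → ℝ), 0 ≤ v → v ≤ 1 → z ∈ Zs →
    NN z v p + c3 * hv v * Real.sqrt (sq p) ≤ Lam4 δ p + Fv v + C * VV z) ∧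
  |Lam4 δ (gr wz z) + Fv (wz z) - NN z (wz z) (gr wz z)| ≤ C * (if 2 < Rz z then VV z else 1)

/-- C9 -/
def CCal : Prop := ∀ δ : ℝ, 0 < δ → δ ≤ 1 / 1000 → QFin δ → Cal δ

/-- competitors with almost the energy of `w` -/
structure Adm (δ ρ : ℝ) (U : (Fin 4 → ℝ) → ℝ) : Prop where
  comp : Comp wz ρ U
  en : ∫ x in closedBall 0 ρ, (Lam4 δ (gr U x) + Fv (U x))
    ≤ (∫ x in closedBall 0 ρ, (Lam4 δ (gr wz x) + Fv (wz x))) + 1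

/-- C10: total variation in the sector -/
def CMain : Prop := ∀ δ : ℝ, 0 < δ → δ ≤ 1 / 1000 → Cal δ → ∃ C : ℝ, ∀ (ρ : ℝ)
  (U : (Fin 4 → ℝ) → ℝ), Adm δ ρ U →
  ∫⁻ z in Zs, ENNReal.ofReal (hv (U z) * Real.sqrt (sq (gr U z))) ≤ ENNReal.ofReal C

/-- the phases of a function on four families of cubes -/
def Phases (C : ℝ) (u : (Fin 4 → ℝ) → ℝ) : Prop := ∀ r s : ℝ, 4 ≤ r → (s = 1 ∨ s = -1) →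
  ∫ z in closedBall (r • (![s * (36 / 25), 0, 4 / 5, 0] : Fin 4 → ℝ)) (r / 100),
    (Hv 1 - Hv (u z)) ≤ C * r ∧
  ∫ z in closedBall (r • (![s * (11 / 25), 0, 4 / 5, 0] : Fin 4 → ℝ)) (r / 100),
    Hv (u z) ≤ C * r

/-- C11: decay -/
def CDecay : Prop := ∀ δ C : ℝ, 0 < δ → ∃ C' : ℝ, ∀ (ρ : ℝ) (U : (Fin 4 → ℝ) → ℝ), Adm δ ρ U →
  ∫⁻ z in Zs, ENNReal.ofReal (hv (U z) * Real.sqrt (sq (gr U z))) ≤ ENNReal.ofReal C →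
  Phases C' U

/-! ### Part E: self-intersection -/

/-- E1: the phases are inherited by `L^2_loc` limits -/
def ELim : Prop := ∀ (C : ℝ) (U : ℕ → (Fin 4 → ℝ) → ℝ) (u : (Fin 4 → ℝ) → ℝ),
  (∀ j, Lip (U j)) → Lip u → (∀ j, Phases C (U j)) →
  (∀ R : ℝ, Tendsto (fun j => ∫ x in closedBall 0 R, (U j x - u x) ^ 2) atTop (𝓝 0)) →
  Phases C u

/-- E2: the unit translation crosses -/
def ECross : Prop := ∀ (C : ℝ) (u : (Fin 4 → ℝ) → ℝ), Lip u → (∀ x, 0 ≤ u x ∧ u x ≤ 1) →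
  Phases C u → (∃ z, u (z + Pi.single 0 1) < u z) ∧ ∃ z, u z < u (z + Pi.single 0 1)

/-- E3: the four-dimensional result -/
def EFour : Prop := ∃ (δ : ℝ) (D : Dat 4) (u : (Fin 4 → ℝ) → ℝ), 0 < δ ∧ δ ≤ 1 / 1000 ∧
  D.Lam = Lam4 δ ∧ D.F = Fv ∧ Lip u ∧ MinAut D u ∧
  (∃ z, u (z + Pi.single 0 1) < u z) ∧ ∃ z, u z < u (z + Pi.single 0 1)

/-! ### Part N: the final statement, all dimensions `n ≥ 4` -/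

/-- second derivative of a function on the jet space in two directions -/
noncomputable def D2 {n : ℕ} (L : (Fin n → ℝ) → ℝ → (Fin n → ℝ) → ℝ)
    (q X Y : (Fin n → ℝ) × ℝ × (Fin n → ℝ)) : ℝ :=
  fderiv ℝ (fun q' => fderiv ℝ (fun q'' : (Fin n → ℝ) × ℝ × (Fin n → ℝ) =>
    L q''.1 q''.2.1 q''.2.2) q' X) q Y

/-- smooth, `ℤ^{n+1}`-periodic, standard convexity and growth conditions -/
structure BLag {n : ℕ} (L : (Fin n → ℝ) → ℝ → (Fin n → ℝ) → ℝ) : Prop where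
  smooth : ContDiff ℝ ((⊤ : ℕ∞) : WithTop ℕ∞)
    (fun q : (Fin n → ℝ) × ℝ × (Fin n → ℝ) => L q.1 q.2.1 q.2.2)
  per : ∀ (x : Fin n → ℝ) (v : ℝ) (p : Fin n → ℝ) (k : Fin n → ℤ) (l : ℤ),
    L (fun i => x i + k i) (v + l) p = L x v p
  bounds : ∃ c : ℝ, 0 < c ∧ ∀ (x : Fin n → ℝ) (v : ℝ) (p : Fin n → ℝ),
    (∀ ξ : Fin n → ℝ, c⁻¹ * ∑ i, ξ i ^ 2 ≤ D2 L (x, v, p) (0, 0, ξ) (0, 0, ξ) ∧
      D2 L (x, v, p) (0, 0, ξ) (0, 0, ξ) ≤ c * ∑ i, ξ i ^ 2) ∧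
    (∀ ξ y : Fin n → ℝ, |D2 L (x, v, p) (0, 0, ξ) (y, 0, 0)|
      ≤ c * (1 + Real.sqrt (∑ i, p i ^ 2)) * Real.sqrt (∑ i, ξ i ^ 2)
        * Real.sqrt (∑ i, y i ^ 2)) ∧
    (∀ (ξ : Fin n → ℝ) (s : ℝ), |D2 L (x, v, p) (0, 0, ξ) (0, s, 0)|
      ≤ c * (1 + Real.sqrt (∑ i, p i ^ 2)) * Real.sqrt (∑ i, ξ i ^ 2) * |s|) ∧
    (∀ y y' : Fin n → ℝ, |D2 L (x, v, p) (y, 0, 0) (y', 0, 0)|
      ≤ c * (1 + ∑ i, p i ^ 2) * Real.sqrt (∑ i, y i ^ 2) * Real.sqrt (∑ i, y' i ^ 2)) ∧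
    (∀ (y : Fin n → ℝ) (s : ℝ), |D2 L (x, v, p) (y, 0, 0) (0, s, 0)|
      ≤ c * (1 + ∑ i, p i ^ 2) * Real.sqrt (∑ i, y i ^ 2) * |s|) ∧
    (∀ s s' : ℝ, |D2 L (x, v, p) (0, s, 0) (0, s', 0)| ≤ c * (1 + ∑ i, p i ^ 2) * |s| * |s'|)

/-- minimal functions -/
def IsMinimal {n : ℕ} (L : (Fin n → ℝ) → ℝ → (Fin n → ℝ) → ℝ) (u : (Fin n → ℝ) → ℝ) : Prop :=
  LocallyLipschitz u ∧ ∀ φ : (Fin n → ℝ) → ℝ, (∃ K, LipschitzWith K φ) → HasCompactSupport φ →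
    ∫ x in tsupport φ, L x (u x) (fun i => fderiv ℝ u x (Pi.single i 1))
      ≤ ∫ x in tsupport φ, L x (u x + φ x)
        (fun i => fderiv ℝ (fun y => u y + φ y) x (Pi.single i 1))

/-- the graph of `u` in the torus has no self-intersections -/
def NoSelfInt {n : ℕ} (u : (Fin n → ℝ) → ℝ) : Prop := ∀ (k : Fin n → ℤ) (l : ℤ),
  (∀ x, u (fun i => x i + k i) + l - u x = 0) ∨ (∀ x, u (fun i => x i + k i) + l - u x ≠ 0)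

/-- the Lagrangian in dimension `4 + m` -/
noncomputable def Ln (δ : ℝ) (m : ℕ) (_x : Fin (4 + m) → ℝ) (v : ℝ) (p : Fin (4 + m) → ℝ) : ℝ :=
  Fv v + Lam4 δ (fun i => p (Fin.castAdd m i)) + 1 / 2 * ∑ j, p (Fin.natAdd 4 j) ^ 2

/-- N1 -/
def NLag : Prop := ∀ (δ : ℝ) (m : ℕ), 0 < δ → δ ≤ 1 / 1000 → BLag (Ln δ m)

/-- N2 -/
def NMin : Prop := ∀ (δ : ℝ) (m : ℕ) (D : Dat 4) (u : (Fin 4 → ℝ) → ℝ), 0 < δ →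
  D.Lam = Lam4 δ → D.F = Fv → Lip u → MinAut D u →
  IsMinimal (Ln δ m) (fun x : Fin (4 + m) → ℝ => u (fun i => x (Fin.castAdd m i)))

/-- N3: the final theorem -/
def NFinal : Prop := ∀ n : ℕ, 4 ≤ n → ∃ (L : (Fin n → ℝ) → ℝ → (Fin n → ℝ) → ℝ)
  (u : (Fin n → ℝ) → ℝ), BLag L ∧ IsMinimal L u ∧ (∃ K, LipschitzWith K u) ∧ ¬ NoSelfInt u

end Pool.Agent.Work.MP_85f2da_an
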