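import Pool.Agent.Work.MP_85f2da_an.StmtsB

set_option autoImplicit false

/-!
# MP_85f2da_an, item C9: from `(R,a,t)` to `ℝ^4`
-/

open MeasureTheory Filter Set Metric
open scoped ENNReal Topology ContDiff

namespace Pool.Agent.Work.MP_85f2da_an

private theorem c9_A1 (p : Fin 4 → ℝ) : 0 ≤ A1 p := by unfold A1; positivity

private theorem c9_A2 (p : Fin 4 → ℝ) : 0 ≤ A2 p := by unfold A2; positivity

private theorem c9_sq (p : Fin 4 → ℝ) : sq p = A1 p + A2 p := by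
  unfold sq A1 A2
  rw [Fin.sum_univ_four]; ring

private theorem c9_lamr (δ : ℝ) (p : Fin 4 → ℝ) :
    lamr δ (Real.sqrt (A1 p)) (Real.sqrt (A2 p)) = Lam4 δ p := by
  unfold lamr Lam4
  rw [Real.sq_sqrt (c9_A1 p), Real.sq_sqrt (c9_A2 p)]

private theorem c9_Lam4 (δ : ℝ) (hδ : 0 < δ) (p : Fin 4 → ℝ) : sq p / 4 ≤ Lam4 δ p := by
  rw [c9_sq]
  unfold Lam4
  have h1 := c9_A1 p
  have h2 := c9_A2 p
  have h3 : 0 ≤ δ * (1 + A1 p + A2 p) := by positivity
  have h4 : δ * (1 + A1 p + A2 p) ≤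
      Real.sqrt ((A1 p - A2 p) ^ 2 + δ ^ 2 * (1 + A1 p + A2 p) ^ 2) := by
    refine Real.le_sqrt_of_sq_le ?_
    have := sq_nonneg (A1 p - A2 p)
    rw [mul_pow]
    linarith
  linarith

private theorem c9_hv (v : ℝ) : 0 ≤ Fv v := by unfold Fv; positivity

private theorem c9_nx2 (z : Fin 4 → ℝ) : nx z ^ 2 = z 0 ^ 2 + z 1 ^ 2 := by
  unfold nx; rw [Real.sq_sqrt (by positivity)]

private theorem c9_ny2 (z : Fin 4 → ℝ) : ny z ^ 2 = z 2 ^ 2 + z 3 ^ 2 := by
  unfold ny; rw [Real.sq_sqrt (by positivity)]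

private theorem c9_dot (N T : ℝ) (z p : Fin 4 → ℝ) : dot (vf N T z) p =
    (N + T) / 2 * ((z 0 * p 0 + z 1 * p 1) / nx z)
      - (N - T) / 2 * ((z 2 * p 2 + z 3 * p 3) / ny z) := by
  unfold dot vf
  rw [Fin.sum_univ_four]
  simp only [Matrix.cons_val_zero, Matrix.cons_val_one, Matrix.cons_val]
  ring

private theorem c9_P (z p : Fin 4 → ℝ) (h : 0 < nx z) :
    |(z 0 * p 0 + z 1 * p 1) / nx z| ≤ Real.sqrt (A1 p) := by
  refine Real.abs_le_sqrt ?_
  rw [div_pow, div_le_iff₀ (by positivity), c9_nx2]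
  unfold A1
  linarith [sq_nonneg (z 0 * p 1 - z 1 * p 0)]

private theorem c9_Q (z p : Fin 4 → ℝ) (h : 0 < ny z) :
    |(z 2 * p 2 + z 3 * p 3) / ny z| ≤ Real.sqrt (A2 p) := by
  refine Real.abs_le_sqrt ?_
  rw [div_pow, div_le_iff₀ (by positivity), c9_ny2]
  unfold A2
  linarith [sq_nonneg (z 2 * p 3 - z 3 * p 2)]

private theorem c9_fD1 (R a : ℝ) : fD 1 R a = - fD 0 R a := by
  unfold fD; simp

private theorem c9_fD2 (R a : ℝ) : fD 2 R a = 0 := by
  unfold fD; simp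

private theorem c9_fD3 (R a : ℝ) : fD 3 R a = 0 := by
  unfold fD; simp

private theorem c9_NN (hDiv : CDiv) (hCut : CCut) (z : Fin 4 → ℝ) (v : ℝ) (p : Fin 4 → ℝ)
    (hx : 0 < nx z) (hy : 0 < ny z) (hR : 2 < Rz z) :
    NN z v p = ((∑ i, kp i v * fN i (Rz z) (az z)) + ∑ i, kp i v * fT i (Rz z) (az z)) / 2 *
        ((z 0 * p 0 + z 1 * p 1) / nx z)
      - ((∑ i, kp i v * fN i (Rz z) (az z)) - ∑ i, kp i v * fT i (Rz z) (az z)) / 2 *
        ((z 2 * p 2 + z 3 * p 3) / ny z)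
      + ((kk 0 v - kk 1 v) * fD 0 (Rz z) (az z) + kk 4 v * fD 4 (Rz z) (az z)
        + kk 5 v * fD 5 (Rz z) (az z)) := by
  unfold NN
  have h : ∀ i : Fin 6, kp i v * dot (Ec i z) p + kk i v * dv (Ec i) z =
      kp i v * ((fN i (Rz z) (az z) + fT i (Rz z) (az z)) / 2 * ((z 0 * p 0 + z 1 * p 1) / nx z)
      - (fN i (Rz z) (az z) - fT i (Rz z) (az z)) / 2 * ((z 2 * p 2 + z 3 * p 3) / ny z))
      + kk i v * fD i (Rz z) (az z) := by
    intro i
    rw [(hCut i z hR).2, (hDiv i z hx hy).2, (hCut i z hR).1]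
    unfold Ez
    rw [c9_dot]
  rw [Finset.sum_congr rfl fun i _ => h i]
  simp only [Fin.sum_univ_six]
  rw [c9_fD1, c9_fD2, c9_fD3]
  ring

private theorem c9_az (z : Fin 4 → ℝ) : |az z| ≤ Rz z := by
  unfold az Rz
  have h1 : 0 ≤ nx z := Real.sqrt_nonneg _
  have h2 : 0 ≤ ny z := Real.sqrt_nonneg _
  rw [abs_le]; constructor <;> linarith

private theorem c9_VV (z : Fin 4 → ℝ) : 0 ≤ VV z := by
  unfold VV
  have h1 : 0 ≤ nx z := Real.sqrt_nonneg _
  have h2 : 0 ≤ ny z := Real.sqrt_nonneg _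
  have h3 : 0 ≤ Rz z := by unfold Rz; linarith
  positivity

/-- the function `NN` for `v = gv t` -/
private theorem c9_NNt (hPrim : BPrim) (hProf : BProf) (hDiv : CDiv) (hCut : CCut)
    (z : Fin 4 → ℝ) (t : ℝ) (p : Fin 4 → ℝ) (hx : 0 < nx z) (hy : 0 < ny z) (hR : 2 < Rz z) :
    NN z (gv t) p = (SN (Rz z) (az z) t + ST (Rz z) (az z) t) / 2 *
        ((z 0 * p 0 + z 1 * p 1) / nx z)
      - (SN (Rz z) (az z) t - ST (Rz z) (az z) t) / 2 * ((z 2 * p 2 + z 3 * p 3) / ny z)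
      + S0 (Rz z) (az z) t := by
  rw [c9_NN hDiv hCut z (gv t) p hx hy hR]
  obtain ⟨-, -, h3, h4, h5, -, -⟩ := hPrim
  obtain ⟨-, hg, htau, -⟩ := hProf
  have hk : ∀ i, kp i (gv t) = kt i t := by
    intro i
    unfold kp
    rw [if_pos (hg t), htau t]
  simp only [hk]
  rw [h3 t, h4 t, h5 t]
  rfl

private theorem c9_bd (x A : ℝ) (y B : ℝ) (hA : |x| ≤ A) (hB : |y| ≤ B) (M N : ℝ) :
    M / 2 * x - N / 2 * y ≤ |M| / 2 * A + |N| / 2 * B := by
  have h1 : M / 2 * x ≤ |M| / 2 * A := by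
    calc M / 2 * x ≤ |M / 2 * x| := le_abs_self _
      _ = |M| / 2 * |x| := by rw [abs_mul, abs_div, abs_two]
      _ ≤ |M| / 2 * A := by gcongr
  have h2 : -(N / 2 * y) ≤ |N| / 2 * B := by
    calc -(N / 2 * y) ≤ |N / 2 * y| := neg_le_abs _
      _ = |N| / 2 * |y| := by rw [abs_mul, abs_div, abs_two]
      _ ≤ |N| / 2 * B := by gcongr
  linarith

private theorem c9_zero (hPrim : BPrim) (hDiv : CDiv) (hCut : CCut)
    (z : Fin 4 → ℝ) (v : ℝ) (p : Fin 4 → ℝ) (hx : 0 < nx z) (hy : 0 < ny z) (hR : 2 < Rz z)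
    (hv : v = 0 ∨ v = 1) : NN z v p = 0 := by
  rw [c9_NN hDiv hCut z v p hx hy hR]
  obtain ⟨-, h2, -, -, -, h6, -⟩ := hPrim
  have hk : ∀ i, kp i v = 0 := by
    intro i
    unfold kp
    rw [if_neg]
    rintro ⟨h, h'⟩
    rcases hv with hv | hv <;> subst hv <;> simp at h h'
  have hkk : kk 0 v - kk 1 v = 0 ∧ kk 4 v = 0 ∧ kk 5 v = 0 := by
    rcases hv with hv | hv
    · rw [h2 0 v hv.le, h2 1 v hv.le, h2 4 v hv.le, h2 5 v hv.le]; simp
    · exact h6 v hv.ge
  simp only [hk]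
  rw [hkk.1, hkk.2.1, hkk.2.2]
  simp

private theorem c9_hv0 (v : ℝ) (hv' : v = 0 ∨ v = 1) : hv v = 0 := by
  unfold hv
  rcases hv' with h | h
  · subst h; simp
  · subst h; simp

private theorem c9_rough (hPrim : BPrim) (hBd : CBd) : ∃ B : ℝ, 0 < B ∧ ∀ (z : Fin 4 → ℝ) (v : ℝ)
    (p : Fin 4 → ℝ), 0 < nx z → 0 < ny z → |NN z v p| ≤ B * (4 * Real.sqrt (sq p) + 1) := by
  obtain ⟨C, hC, hCb⟩ := hBd
  obtain ⟨-, -, -, -, -, -, C2, hC2⟩ := hPrim
  have hC20 : 0 ≤ C2 := (abs_nonneg _).trans (hC2 0 0).1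
  refine ⟨6 * C2 * C + 1, by positivity, fun z v p hx hy => ?_⟩
  have hs : 0 ≤ Real.sqrt (sq p) := Real.sqrt_nonneg _
  have hp : ∀ j, |p j| ≤ Real.sqrt (sq p) := by
    intro j
    refine Real.abs_le_sqrt ?_
    unfold sq
    exact Finset.single_le_sum (f := fun i => p i ^ 2) (fun i _ => sq_nonneg _) (Finset.mem_univ j)
  have hdot : ∀ i, |dot (Ec i z) p| ≤ 4 * C * Real.sqrt (sq p) := by
    intro i
    unfold dot
    refine (Finset.abs_sum_le_sum_abs _ _).trans ?_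
    calc ∑ j, |Ec i z j * p j| ≤ ∑ _j : Fin 4, C * Real.sqrt (sq p) := by
          refine Finset.sum_le_sum fun j _ => ?_
          rw [abs_mul]
          exact mul_le_mul ((hCb i z).1 j) (hp j) (abs_nonneg _) hC.le
      _ = 4 * C * Real.sqrt (sq p) := by simp; ring
  unfold NN
  refine (Finset.abs_sum_le_sum_abs _ _).trans ?_
  calc ∑ i, |kp i v * dot (Ec i z) p + kk i v * dv (Ec i) z|
      ≤ ∑ _i : Fin 6, (C2 * (4 * C * Real.sqrt (sq p)) + C2 * C) := by
        refine Finset.sum_le_sum fun i _ => ?_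
        refine (abs_add_le _ _).trans (add_le_add ?_ ?_)
        · rw [abs_mul]
          exact mul_le_mul (hC2 i v).2 (hdot i) (abs_nonneg _) hC20
        · rw [abs_mul]
          exact mul_le_mul (hC2 i v).1 ((hCb i z).2 hx hy) (abs_nonneg _) hC20
    _ = 6 * C2 * C * (4 * Real.sqrt (sq p) + 1) := by simp; ring
    _ ≤ (6 * C2 * C + 1) * (4 * Real.sqrt (sq p) + 1) := by
        refine mul_le_mul_of_nonneg_right (by linarith) (by positivity)

theorem cCal : BPrim → BProf → BHh → CDiv → CCut → CBd → CW → CCal := by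
  intro hPrim hProf hHh hDiv hCut hBd hW δ hδ hδ1 hQ
  obtain ⟨C, c3, hC, hc3, hQ⟩ := hQ
  obtain ⟨B, hB, hrough⟩ := c9_rough hPrim hBd
  obtain ⟨hPd, hPg, hPt, hPgt, hPh, -⟩ := id hProf
  have hK : 0 < C + (16 * B ^ 2 + B) + (1 + 9 * B) := by positivity
  refine ⟨C + (16 * B ^ 2 + B) + (1 + 9 * B), c3, hK, hc3, fun z hx hy => ⟨?_, ?_, ?_⟩⟩
  · -- (i)
    intro v p hv0 hv1
    by_cases hR : 2 < Rz z
    · rw [if_pos hR]
      have hVV := c9_VV z
      have hL : 0 ≤ Lam4 δ p := by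
        have := c9_Lam4 δ hδ p
        have h2 : 0 ≤ sq p := by rw [c9_sq]; linarith [c9_A1 p, c9_A2 p]
        linarith
      by_cases hv : v = 0 ∨ v = 1
      · rw [c9_zero hPrim hDiv hCut z v p hx hy hR hv]
        have := c9_hv v
        positivity
      · push Not at hv
        have hv' : 0 < v ∧ v < 1 := ⟨lt_of_le_of_ne hv0 (Ne.symm hv.1), lt_of_le_of_ne hv1 hv.2⟩
        set t := tauv v with ht
        have hvt : gv t = v := hPgt v hv'.1 hv'.2
        have hF : Fv v = hh t ^ 2 / 2 := by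
          unfold Fv
          rw [← hvt, hPh t]
        rw [← hvt, c9_NNt hPrim hProf hDiv hCut z t p hx hy hR, hvt, hF]
        have h1 := (hQ (Rz z) (az z) t (Real.sqrt (A1 p)) (Real.sqrt (A2 p)) hR.le (c9_az z)
          (Real.sqrt_nonneg _) (Real.sqrt_nonneg _)).1
        rw [c9_lamr] at h1
        have h2 := c9_bd _ _ _ _ (c9_P z p hx) (c9_Q z p hy)
          (SN (Rz z) (az z) t + ST (Rz z) (az z) t) (SN (Rz z) (az z) t - ST (Rz z) (az z) t)
        have h3 : Real.exp (-|az z|) / Rz z ^ 4 + 1 / Rz z ^ 8 = VV z := rfl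
        rw [h3] at h1
        have h4 : 0 ≤ (16 * B ^ 2 + B) + (1 + 9 * B) := by positivity
        linarith [mul_nonneg h4 hVV]
    · rw [if_neg hR]
      have h1 := hrough z v p hx hy
      have h2 := le_abs_self (NN z v p)
      have h3 := c9_Lam4 δ hδ p
      have h4 := c9_hv v
      have hsq : 0 ≤ sq p := by rw [c9_sq]; linarith [c9_A1 p, c9_A2 p]
      have h5 : Real.sqrt (sq p) ^ 2 = sq p := Real.sq_sqrt hsq
      set s := Real.sqrt (sq p) with hs
      linarith [sq_nonneg (s / 2 - 4 * B)]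
  · -- (ii)
    intro v p hv0 hv1 hz
    obtain ⟨hR, hz1, hz2⟩ := hz
    have hVV := c9_VV z
    have hL : 0 ≤ Lam4 δ p := by
      have := c9_Lam4 δ hδ p
      have h2 : 0 ≤ sq p := by rw [c9_sq]; linarith [c9_A1 p, c9_A2 p]
      linarith
    by_cases hvn : v = 0 ∨ v = 1
    · rw [c9_zero hPrim hDiv hCut z v p hx hy hR hvn, c9_hv0 v hvn]
      have := c9_hv v
      have h6 : 0 ≤ (C + (16 * B ^ 2 + B) + (1 + 9 * B)) * VV z := by positivity
      linarith
    · push Not at hvn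
      have hv' : 0 < v ∧ v < 1 := ⟨lt_of_le_of_ne hv0 (Ne.symm hvn.1), lt_of_le_of_ne hv1 hvn.2⟩
      set t := tauv v with ht
      have hvt : gv t = v := hPgt v hv'.1 hv'.2
      have hF : Fv v = hh t ^ 2 / 2 := by
        unfold Fv
        rw [← hvt, hPh t]
      have hhv : hv v = hh t := by rw [← hvt, hPh t]
      rw [hhv, ← hvt, c9_NNt hPrim hProf hDiv hCut z t p hx hy hR, hvt, hF]
      have h1 := (hQ (Rz z) (az z) t (Real.sqrt (A1 p)) (Real.sqrt (A2 p)) hR.le (c9_az z)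
        (Real.sqrt_nonneg _) (Real.sqrt_nonneg _)).2.1 hz1 hz2
      rw [c9_lamr] at h1
      have h2 := c9_bd _ _ _ _ (c9_P z p hx) (c9_Q z p hy)
        (SN (Rz z) (az z) t + ST (Rz z) (az z) t) (SN (Rz z) (az z) t - ST (Rz z) (az z) t)
      have hpos : 0 < hh t := (hHh t).1
      have h3 : Real.sqrt (sq p) ≤ Real.sqrt (A1 p) + Real.sqrt (A2 p) := by
        have k1 := Real.sqrt_nonneg (A1 p)
        have k2 := Real.sqrt_nonneg (A2 p)
        have k3 := Real.sq_sqrt (c9_A1 p)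
        have k4 := Real.sq_sqrt (c9_A2 p)
        rw [c9_sq]
        refine Real.sqrt_le_iff.2 ⟨by positivity, ?_⟩
        linarith [mul_nonneg k1 k2]
      have h4 : c3 * hh t * Real.sqrt (sq p) ≤
          c3 * hh t * (Real.sqrt (A1 p) + Real.sqrt (A2 p)) := by gcongr
      have h5 : 1 / Rz z ^ 8 ≤ VV z := by
        unfold VV
        have : 0 ≤ Real.exp (-|az z|) / Rz z ^ 4 := by
          have : 0 < Rz z := by linarith
          positivity
        linarith
      have h6 : C * (1 / Rz z ^ 8) ≤ C * VV z := by gcongr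
      have h7 : 0 ≤ ((16 * B ^ 2 + B) + (1 + 9 * B)) * VV z := by positivity
      linarith
  · -- (iii)
    have hgr := hW.2.2 z hx hy
    set q := gr wz z with hq
    have hx2 := c9_nx2 z
    have hy2 := c9_ny2 z
    have hq0 : q 0 = hh (az z) * (z 0 / nx z) := by rw [hgr]; simp
    have hq1 : q 1 = hh (az z) * (z 1 / nx z) := by rw [hgr]; simp
    have hq2 : q 2 = -(hh (az z) * (z 2 / ny z)) := by rw [hgr]; simp
    have hq3 : q 3 = -(hh (az z) * (z 3 / ny z)) := by rw [hgr]; simp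
    have hA1 : A1 q = hh (az z) ^ 2 := by
      unfold A1
      rw [hq0, hq1]
      have : (hh (az z) * (z 0 / nx z)) ^ 2 + (hh (az z) * (z 1 / nx z)) ^ 2 =
          hh (az z) ^ 2 * ((z 0 ^ 2 + z 1 ^ 2) / nx z ^ 2) := by ring
      rw [this, ← hx2, div_self (by positivity), mul_one]
    have hA2 : A2 q = hh (az z) ^ 2 := by
      unfold A2
      rw [hq2, hq3]
      have : (-(hh (az z) * (z 2 / ny z))) ^ 2 + (-(hh (az z) * (z 3 / ny z))) ^ 2 =
          hh (az z) ^ 2 * ((z 2 ^ 2 + z 3 ^ 2) / ny z ^ 2) := by ring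
      rw [this, ← hy2, div_self (by positivity), mul_one]
    have hLam : Lam4 δ q = hh (az z) ^ 2 / 2 := by
      unfold Lam4
      rw [hA1, hA2]
      have : (hh (az z) ^ 2 - hh (az z) ^ 2) ^ 2 +
          δ ^ 2 * (1 + hh (az z) ^ 2 + hh (az z) ^ 2) ^ 2 =
          (δ * (1 + hh (az z) ^ 2 + hh (az z) ^ 2)) ^ 2 := by ring
      rw [this, Real.sqrt_sq (by positivity)]
      ring
    have hFw : Fv (wz z) = hh (az z) ^ 2 / 2 := by
      unfold Fv wz
      rw [hPh]
    by_cases hR : 2 < Rz z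
    · rw [if_pos hR]
      have hP : (z 0 * q 0 + z 1 * q 1) / nx z = hh (az z) := by
        rw [hq0, hq1]
        have : (z 0 * (hh (az z) * (z 0 / nx z)) + z 1 * (hh (az z) * (z 1 / nx z))) / nx z =
            hh (az z) * ((z 0 ^ 2 + z 1 ^ 2) / nx z ^ 2) := by ring
        rw [this, ← hx2, div_self (by positivity), mul_one]
      have hQ' : (z 2 * q 2 + z 3 * q 3) / ny z = -hh (az z) := by
        rw [hq2, hq3]
        have : (z 2 * -(hh (az z) * (z 2 / ny z)) + z 3 * -(hh (az z) * (z 3 / ny z))) / ny z =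
            -hh (az z) * ((z 2 ^ 2 + z 3 ^ 2) / ny z ^ 2) := by ring
        rw [this, ← hy2, div_self (by positivity), mul_one]
      have hNN : NN z (wz z) q = hh (az z) * SN (Rz z) (az z) (az z)
          + S0 (Rz z) (az z) (az z) := by
        unfold wz
        rw [c9_NNt hPrim hProf hDiv hCut z (az z) q hx hy hR, hP, hQ']
        ring
      rw [hLam, hFw, hNN]
      have h1 := (hQ (Rz z) (az z) (az z) 0 0 hR.le (c9_az z) le_rfl le_rfl).2.2
      have h3 : Real.exp (-|az z|) / Rz z ^ 4 + 1 / Rz z ^ 8 = VV z := rfl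
      rw [h3] at h1
      have h2 : hh (az z) ^ 2 / 2 + hh (az z) ^ 2 / 2 -
          (hh (az z) * SN (Rz z) (az z) (az z) + S0 (Rz z) (az z) (az z)) =
          hh (az z) ^ 2 - hh (az z) * SN (Rz z) (az z) (az z) - S0 (Rz z) (az z) (az z) := by
        ring
      rw [h2]
      have hVV := c9_VV z
      have h4 : 0 ≤ ((16 * B ^ 2 + B) + (1 + 9 * B)) * VV z := by positivity
      linarith
    · rw [if_neg hR, hLam, hFw]
      have h1 := hrough z (wz z) q hx hy
      have hpos := (hHh (az z)).1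
      have hle := (hHh (az z)).2.2.2
      have hh1 : hh (az z) ≤ 1 := by
        refine hle.trans ?_
        rw [div_le_one Real.pi_pos]
        linarith [Real.pi_gt_three]
      have h6 : hh (az z) ^ 2 ≤ 1 := pow_le_one₀ hpos.le hh1
      have hsq : Real.sqrt (sq q) ≤ 2 := by
        refine Real.sqrt_le_iff.2 ⟨by norm_num, ?_⟩
        rw [c9_sq, hA1, hA2]
        linarith
      have h2 : |NN z (wz z) q| ≤ B * 9 := by
        refine h1.trans ?_
        refine mul_le_mul_of_nonneg_left (by linarith) hB.le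
      have h3 : |hh (az z) ^ 2 / 2 + hh (az z) ^ 2 / 2 - NN z (wz z) q| ≤
          hh (az z) ^ 2 + |NN z (wz z) q| := by
        have h5 : hh (az z) ^ 2 / 2 + hh (az z) ^ 2 / 2 - NN z (wz z) q =
            hh (az z) ^ 2 - NN z (wz z) q := by ring
        rw [h5]
        refine (abs_sub _ _).trans ?_
        rw [abs_of_nonneg (sq_nonneg (hh (az z)))]
      have h7 : 0 ≤ 16 * B ^ 2 + B := by positivity
      linarith

end Pool.Agent.Work.MP_85f2da_an
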