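import Pool.Agent.Work.MP_85f2da_an.StmtsB

set_option autoImplicit false

/-!
# MP_85f2da_an, Q2: the main pointwise inequality
-/

open MeasureTheory Filter Set Metric
open scoped ENNReal Topology ContDiff

namespace Pool.Agent.Work.MP_85f2da_an

private theorem q2_mul {a b A B : ℝ} (ha : |a| ≤ A) (hb : |b| ≤ B) : |a * b| ≤ A * B := by
  rw [abs_mul]
  exact mul_le_mul ha hb (abs_nonneg _) ((abs_nonneg _).trans ha)

private theorem q2_add {a b A B : ℝ} (ha : |a| ≤ A) (hb : |b| ≤ B) : |a + b| ≤ A + B :=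
  (abs_add_le a b).trans (add_le_add ha hb)

private theorem q2_sub {a b A B : ℝ} (ha : |a| ≤ A) (hb : |b| ≤ B) : |a - b| ≤ A + B := by
  have h : |a - b| = |a + -b| := by ring_nf
  rw [h]
  exact q2_add ha (by rwa [abs_neg])

private theorem q2_pow {a : ℝ} (ha : |a| ≤ 1) (n : ℕ) : |a ^ n| ≤ 1 := by
  rw [abs_pow]
  exact pow_le_one₀ (abs_nonneg _) ha

private theorem q2_sN {w σ x b e c : ℝ} (hw : |w| ≤ 1) (hσ : |σ| ≤ 1) (he : |e| ≤ 1)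
    (hx0 : 0 ≤ x) (hx : x ≤ 7 / 6) (hb : |b| ≤ 2 / 3) (hg : |c * e ^ 2| ≤ 6) :
    |sN w σ x b e c| ≤ 100 := by
  have hx' : |x| ≤ 7 / 6 := abs_le.2 ⟨by linarith, hx⟩
  have hx1 : |1 - x| ≤ 1 := abs_le.2 ⟨by linarith, by linarith⟩
  have hf : |1 - w ^ 2| ≤ 1 := by
    have h1 : w ^ 2 ≤ 1 := by
      have := q2_pow hw 2
      exact (abs_le.1 this).2
    have h2 := sq_nonneg w
    exact abs_le.2 ⟨by linarith, by linarith⟩
  have hf2 := q2_pow hf 2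
  have hf3 := q2_pow hf 3
  have h8 : |(8 : ℝ)| ≤ 8 := by norm_num
  have h5 : |(5 : ℝ)| ≤ 5 := by norm_num
  have h6 : |(6 : ℝ)| ≤ 6 := by norm_num
  have h83 : |(8 / 3 : ℝ)| ≤ 8 / 3 := by norm_num
  have h43 : |(4 / 3 : ℝ)| ≤ 4 / 3 := by norm_num
  have h13 : |(1 / 3 : ℝ)| ≤ 1 / 3 := by norm_num
  have h1 : |(1 : ℝ)| ≤ 1 := by norm_num
  have h2 : |(2 : ℝ)| ≤ 2 := by norm_num
  have hg' : |6 * (1 - w ^ 2) - 5 * (1 - w ^ 2) ^ 2| ≤ 6 * 1 + 5 * 1 :=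
    q2_sub (q2_mul h6 hf) (q2_mul h5 hf2)
  have t1 : |(8 * (1 - w ^ 2) ^ 2 - 5 * (1 - w ^ 2) ^ 3) * (1 / 3)| ≤ (8 * 1 + 5 * 1) * (1 / 3) :=
    q2_mul (q2_sub (q2_mul h8 hf2) (q2_mul h5 hf3)) h13
  have t2 := q2_mul (q2_mul (q2_mul (q2_mul h83 hx') hσ) hw) hg'
  have t3 := q2_mul (q2_mul (q2_pow hσ 2) (q2_add (q2_mul h43 hx') h1)) hg'
  have t4 := q2_mul (q2_mul hw hf2) (q2_sub (q2_add (q2_mul (q2_mul h2 hb) he)
    (q2_mul (q2_mul h83 hσ) hx1)) (q2_mul h2 hσ))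
  have t4' : |w * (1 - w ^ 2) ^ 2 * (-2 * b * e + 8 / 3 * σ * (1 - x) - 2 * σ)| ≤
      1 * 1 * (2 * (2 / 3) * 1 + 8 / 3 * 1 * 1 + 2 * 1) := by
    refine q2_mul (q2_mul hw hf2) (q2_sub (q2_add ?_ (q2_mul (q2_mul h83 hσ) hx1)) (q2_mul h2 hσ))
    exact q2_mul (q2_mul (by rw [abs_neg]; exact h2) hb) he
  have t5 : |(1 - w ^ 2) ^ 2 * (-c * e ^ 2 + 2 * σ ^ 2 + 2 * σ * b * e
      - 4 / 3 * σ ^ 2 * (1 - x))| ≤ 1 * (6 + 2 * 1 + 2 * 1 * (2 / 3) * 1 + 4 / 3 * 1 * 1) := by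
    refine q2_mul hf2 (q2_sub (q2_add (q2_add ?_ (q2_mul h2 (q2_pow hσ 2)))
      (q2_mul (q2_mul (q2_mul h2 hσ) hb) he)) (q2_mul (q2_mul h43 (q2_pow hσ 2)) hx1))
    have : -c * e ^ 2 = -(c * e ^ 2) := by ring
    rw [this, abs_neg]
    exact hg
  have key := q2_add (q2_add (q2_sub (q2_add t1 t2) t3) t4') t5
  have e1 : sN w σ x b e c =
      (8 * (1 - w ^ 2) ^ 2 - 5 * (1 - w ^ 2) ^ 3) * (1 / 3)
      + 8 / 3 * x * σ * w * (6 * (1 - w ^ 2) - 5 * (1 - w ^ 2) ^ 2)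
      - σ ^ 2 * (4 / 3 * x + 1) * (6 * (1 - w ^ 2) - 5 * (1 - w ^ 2) ^ 2)
      + w * (1 - w ^ 2) ^ 2 * (-2 * b * e + 8 / 3 * σ * (1 - x) - 2 * σ)
      + (1 - w ^ 2) ^ 2 * (-c * e ^ 2 + 2 * σ ^ 2 + 2 * σ * b * e
        - 4 / 3 * σ ^ 2 * (1 - x)) := by
    unfold sN
    ring
  rw [e1]
  refine key.trans ?_
  norm_num

private theorem q2_sT {w σ x : ℝ} (hw : |w| ≤ 1) (hσ : |σ| ≤ 1)
    (hx0 : 0 ≤ x) (hx : x ≤ 7 / 6) : |sT w σ x| ≤ 100 := by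
  have hx' : |x| ≤ 7 / 6 := abs_le.2 ⟨by linarith, hx⟩
  have hf : |1 - w ^ 2| ≤ 1 := by
    have h1 : w ^ 2 ≤ 1 := by
      have := q2_pow hw 2
      exact (abs_le.1 this).2
    have h2 := sq_nonneg w
    exact abs_le.2 ⟨by linarith, by linarith⟩
  have hf2 := q2_pow hf 2
  have h6 : |(6 : ℝ)| ≤ 6 := by norm_num
  have h83 : |(8 / 3 : ℝ)| ≤ 8 / 3 := by norm_num
  have h43 : |(4 / 3 : ℝ)| ≤ 4 / 3 := by norm_num
  have h1 : |(1 : ℝ)| ≤ 1 := by norm_num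
  have t1 := q2_mul (q2_mul (q2_mul h83 hx') hw) hf2
  have t2 := q2_mul (q2_mul (q2_mul h83 hx') hσ)
    (q2_sub hf2 (q2_mul (q2_mul h6 (q2_pow hw 2)) hf))
  have t3 := q2_mul (q2_mul (q2_mul (q2_mul h6 hw) hf) (q2_pow hσ 2))
    (q2_add (q2_mul h43 hx') h1)
  have key := q2_sub (q2_sub t1 t2) t3
  unfold sT
  refine key.trans ?_
  norm_num

/-- the algebra of the main inequality -/
private theorem q2_core {δ y h n τ s0 S l ζ C1 P' Q' x : ℝ}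
    (hδ : 0 < δ) (hδ1 : δ ≤ 1 / 1000) (hδ2 : δ * (400 * 10000000) ≤ 1 / 20)
    (hcost : ((h * n + h * τ) / 2) ^ 2 / (1 + y - 2 * δ * y ^ 2)
      + ((h * n - h * τ) / 2) ^ 2 / (1 - y - 2 * δ * y ^ 2)
      ≤ (h * n) ^ 2 / 2 + (h * τ - y * (h * n)) ^ 2 / (2 * (1 - y ^ 2))
        + 4000 * δ * y ^ 2 * ((h * n) ^ 2 + (h * τ) ^ 2))
    (hy : |y| ≤ 19 / 20) (hyx : |y| ≤ 3 * x * |l|) (hx0 : 0 ≤ x) (hx : x ≤ 7 / 6)
    (hxh : x ≤ 35 * h ^ 2) (hh0 : 0 < h) (hh1 : h ≤ 1 / 3)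
    (hn : |n| ≤ 100) (hτ : |τ| ≤ 100) (hζ0 : 0 ≤ ζ) (hζ1 : ζ ≤ 1)
    (hsl : 1 / 4 * l ^ 2 - C1 * S ≤
      1 / 2 - n ^ 2 / 2 - (τ - y * n) ^ 2 / (2 * (1 - y ^ 2)) - s0)
    (hP : P' = |h * n + h * τ| / 2 + ζ * h) (hQ : Q' = |h * n - h * τ| / 2 + ζ * h) :
    P' ^ 2 / (1 + y - 2 * δ * y ^ 2) + Q' ^ 2 / (1 - y - 2 * δ * y ^ 2) + δ * y ^ 2 / 2
      + h ^ 2 * s0 ≤ h ^ 2 / 2 - h ^ 2 * (1 / 5 * l ^ 2 - C1 * S - 20000 * ζ) := by
  have hy2 : y ^ 2 ≤ 361 / 400 := by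
    rw [← sq_abs y]
    exact (pow_le_pow_left₀ (abs_nonneg y) hy 2).trans (by norm_num)
  have hy0 : 0 ≤ y ^ 2 := sq_nonneg y
  have hyb := abs_le.1 hy
  have hδy : 2 * δ * y ^ 2 ≤ 1 / 500 := by
    have h1 := mul_le_mul hδ1 hy2 hy0 (by norm_num)
    linarith
  have hD1 : 1 / 25 ≤ 1 + y - 2 * δ * y ^ 2 := by linarith [hyb.1]
  have hD2 : 1 / 25 ≤ 1 - y - 2 * δ * y ^ 2 := by linarith [hyb.2]
  have hb : ∀ q : ℝ, |q| ≤ 200 → (|h * q| / 2 + ζ * h) ^ 2 ≤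
      ((h * q) / 2) ^ 2 + 400 * (ζ * h ^ 2) := by
    intro q hq
    have e1 : |h * q| = h * |q| := by rw [abs_mul, abs_of_pos hh0]
    have e2 : q ^ 2 = |q| ^ 2 := (sq_abs q).symm
    rw [e1]
    have e3 : (h * q / 2) ^ 2 = h ^ 2 * |q| ^ 2 / 4 := by
      rw [← e2]
      ring
    rw [e3]
    have h1 : 0 ≤ ζ * h ^ 2 := by positivity
    have h2 : ζ * h ^ 2 * |q| ≤ ζ * h ^ 2 * 200 := mul_le_mul_of_nonneg_left hq h1
    have h3 : ζ * (ζ * h ^ 2) ≤ 1 * (ζ * h ^ 2) := mul_le_mul_of_nonneg_right hζ1 h1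
    linarith
  have hnt : |n + τ| ≤ 200 := (abs_add_le n τ).trans (by linarith)
  have hnt' : |n - τ| ≤ 200 := by
    have := q2_sub hn hτ
    linarith
  have hP2 : P' ^ 2 ≤ ((h * n + h * τ) / 2) ^ 2 + 400 * (ζ * h ^ 2) := by
    have := hb (n + τ) hnt
    rw [hP]
    have e1 : h * n + h * τ = h * (n + τ) := by ring
    rw [e1]
    exact this
  have hQ2 : Q' ^ 2 ≤ ((h * n - h * τ) / 2) ^ 2 + 400 * (ζ * h ^ 2) := by
    have := hb (n - τ) hnt'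
    rw [hQ]
    have e1 : h * n - h * τ = h * (n - τ) := by ring
    rw [e1]
    exact this
  have hz : 0 ≤ ζ * h ^ 2 := by positivity
  have hdiv : ∀ A B D : ℝ, 1 / 25 ≤ D → A ≤ B + 400 * (ζ * h ^ 2) →
      A / D ≤ B / D + 10000 * (ζ * h ^ 2) := by
    intro A B D hD hA
    have hD0 : 0 < D := by linarith
    have h1 : A / D ≤ (B + 400 * (ζ * h ^ 2)) / D := by gcongr
    have h2 : 400 * (ζ * h ^ 2) / D ≤ 10000 * (ζ * h ^ 2) := by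
      rw [div_le_iff₀ hD0]
      linear_combination 10000 * (mul_nonneg hz (sub_nonneg.2 hD))
    rw [add_div] at h1
    linarith
  have hP3 := hdiv _ _ _ hD1 hP2
  have hQ3 := hdiv _ _ _ hD2 hQ2
  -- the cost
  have h1y : 0 < 1 - y ^ 2 := by linarith
  have e4 : (h * τ - y * (h * n)) ^ 2 / (2 * (1 - y ^ 2)) =
      h ^ 2 * ((τ - y * n) ^ 2 / (2 * (1 - y ^ 2))) := by
    rw [← mul_div_assoc]
    congr 1
    ring
  rw [e4] at hcost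
  have hn2 : n ^ 2 ≤ 10000 := by
    rw [← sq_abs n]
    exact (pow_le_pow_left₀ (abs_nonneg n) hn 2).trans (by norm_num)
  have hτ2 : τ ^ 2 ≤ 10000 := by
    rw [← sq_abs τ]
    exact (pow_le_pow_left₀ (abs_nonneg τ) hτ 2).trans (by norm_num)
  have hh2 : h ^ 2 ≤ 1 / 9 := (pow_le_pow_left₀ hh0.le hh1 2).trans (by norm_num)
  have hh20 : 0 < h ^ 2 := by positivity
  have hl0 : 0 ≤ l ^ 2 := sq_nonneg l
  have hyl : y ^ 2 ≤ 400 * (h ^ 2 * l ^ 2) := by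
    have h1 : y ^ 2 = |y| ^ 2 := (sq_abs y).symm
    have h2 : l ^ 2 = |l| ^ 2 := (sq_abs l).symm
    have h3 : |y| ^ 2 ≤ (3 * x * |l|) ^ 2 := pow_le_pow_left₀ (abs_nonneg _) hyx 2
    have h4 : x ^ 2 ≤ 7 / 6 * (35 * h ^ 2) := by
      rw [pow_two x]
      exact mul_le_mul hx hxh hx0 (by norm_num)
    have h5 : x ^ 2 * l ^ 2 ≤ 7 / 6 * (35 * h ^ 2) * l ^ 2 := mul_le_mul_of_nonneg_right h4 hl0
    rw [h1]
    have h6 : (3 * x * |l|) ^ 2 = 9 * (x ^ 2 * l ^ 2) := by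
      rw [h2]
      ring
    rw [h6] at h3
    have h7 : 0 ≤ h ^ 2 * l ^ 2 := by positivity
    linarith
  have hA : 4000 * ((h * n) ^ 2 + (h * τ) ^ 2) + 1 / 2 ≤ 10000000 := by
    have h1 : (h * n) ^ 2 = h ^ 2 * n ^ 2 := by ring
    have h2 : (h * τ) ^ 2 = h ^ 2 * τ ^ 2 := by ring
    rw [h1, h2]
    have h3 : h ^ 2 * n ^ 2 ≤ 1 / 9 * 10000 := by
      apply mul_le_mul hh2 hn2 (sq_nonneg _) (by norm_num)
    have h4 : h ^ 2 * τ ^ 2 ≤ 1 / 9 * 10000 := by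
      apply mul_le_mul hh2 hτ2 (sq_nonneg _) (by norm_num)
    linarith
  have hB : δ * y ^ 2 * (4000 * ((h * n) ^ 2 + (h * τ) ^ 2) + 1 / 2) ≤
      1 / 20 * (h ^ 2 * l ^ 2) := by
    have h1 : 0 ≤ δ * y ^ 2 := by positivity
    have h2 := mul_le_mul_of_nonneg_left hA h1
    have h3 : δ * y ^ 2 * 10000000 ≤ δ * (400 * (h ^ 2 * l ^ 2)) * 10000000 := by
      have := mul_le_mul_of_nonneg_left hyl hδ.le
      linarith
    have h4 : 0 ≤ h ^ 2 * l ^ 2 := by positivity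
    have h5 := mul_le_mul_of_nonneg_right hδ2 h4
    linarith
  have hsl2 := mul_le_mul_of_nonneg_left hsl hh20.le
  linarith

theorem qMainEx : ADual → ACost → PFar → PNear → QRed → BCoef → BHh → QMainEx := by
  intro hAD hAC hPF hPN hQR hBC hBH
  obtain ⟨η1, C1, hη1, hC1, hnear⟩ := hPN
  obtain ⟨η2, hη2, hfar⟩ := hPF η1 hη1
  refine ⟨1 / 100000000000, by norm_num, by norm_num, min (min η1 η2) (1 / 8), C1 + 20000,
    by positivity, min_le_right _ _, by positivity, ?_⟩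
  intro R a t ζ α β hR ha ht hζ0 hζ1 hα hβ
  set η := min (min η1 η2) (1 / 8) with hη
  have hη0 : 0 < η := by positivity
  have hη1' : η ≤ η1 := (min_le_left _ _).trans (min_le_left _ _)
  have hη2' : η ≤ η2 := (min_le_left _ _).trans (min_le_right _ _)
  have hη8 : η ≤ 1 / 8 := min_le_right _ _
  have hR0 : 0 < R := by
    by_contra hcon
    push Not at hcon
    have h1 := mul_nonneg hη0.le (neg_nonneg.2 hcon)
    linarith
  obtain ⟨hx0, hx76, hx35, hb, hc0, hcle⟩ := hBC t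
  obtain ⟨hh0, -, -, hhle⟩ := hBH t
  have hh3 : hh t ≤ 1 / 3 := by
    refine hhle.trans ?_
    have := Real.pi_gt_three
    exact one_div_le_one_div_of_le (by norm_num) this.le
  have hw : |a / R| ≤ 1 := by
    rw [abs_div, abs_of_pos hR0, div_le_one hR0]
    exact ha
  have hσ : |t / R| ≤ η := by
    rw [abs_div, abs_of_pos hR0, div_le_iff₀ hR0]
    exact ht
  have he0 : 0 < 1 / R := by positivity
  have he : 1 / R ≤ η := by
    rw [div_le_iff₀ hR0]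
    exact hR
  have hce : cc t * (1 / R) ≤ 2 * (1 / R) + 4 * |t / R| := by
    rw [abs_div, abs_of_pos hR0]
    have := mul_le_mul_of_nonneg_right hcle he0.le
    have e1 : 2 * (1 + 2 * |t|) * (1 / R) = 2 * (1 / R) + 4 * (|t| / R) := by
      field_simp
      ring
    linarith
  have hex : ∃ y : ℝ, |y| ≤ 19 / 20 ∧ |y| ≤ 3 * xx t * |a / R - t / R| ∧
      1 / 4 * (a / R - t / R) ^ 2 - C1 * ((1 / R) ^ 2 + (t / R) ^ 2) ^ 2 ≤
        sl (a / R) (t / R) (xx t) (bb t) (1 / R) (cc t) y := by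
    by_cases hcase : |a / R| ≤ η1
    · exact hnear _ _ _ _ _ _ hcase (hσ.trans hη1') he0 (he.trans hη1') hx0 hx76 hb hc0 hce
    · push Not at hcase
      obtain ⟨y, h1, h2, h3⟩ := hfar (a / R) (t / R) (xx t) (bb t) (1 / R) (cc t) hcase.le hw
        (hσ.trans hη2') he0 (he.trans hη2') hx0 hx76 hb hc0 hce
      refine ⟨y, h1, h2, ?_⟩
      have : 0 ≤ C1 * ((1 / R) ^ 2 + (t / R) ^ 2) ^ 2 := by positivity
      linarith
  obtain ⟨y, hy1, hy2, hy3⟩ := hex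
  obtain ⟨q1, q2, q3⟩ := hQR R a t hR0
  have hσ1 : |t / R| ≤ 1 := by linarith
  have he1 : |1 / R| ≤ 1 := by
    rw [abs_of_pos he0]
    linarith
  have hg : |cc t * (1 / R) ^ 2| ≤ 6 := by
    have e1 : cc t * (1 / R) ^ 2 = cc t * (1 / R) * (1 / R) := by ring
    rw [e1, abs_mul, abs_of_pos he0, abs_of_nonneg (by positivity)]
    have h1 : cc t * (1 / R) ≤ 6 := by linarith
    have h2 : 0 ≤ cc t * (1 / R) := by positivity
    have h3 : 1 / R ≤ 1 := by linarith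
    exact (mul_le_mul h1 h3 he0.le (by norm_num)).trans (by norm_num)
  have hnb := q2_sN hw hσ1 he1 hx0 hx76 hb hg
  have hτb := q2_sT hw hσ1 hx0 hx76
  have hδ2 : (1 / 100000000000 : ℝ) * (400 * 10000000) ≤ 1 / 20 := by norm_num
  have hcost := hAC (1 / 100000000000) y (hh t * sN (a / R) (t / R) (xx t) (bb t) (1 / R) (cc t))
    (hh t * sT (a / R) (t / R) (xx t)) (by norm_num) (by norm_num) hy1
  have hcore := q2_core (S := ((1 / R) ^ 2 + (t / R) ^ 2) ^ 2) (C1 := C1) (ζ := ζ)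
    (l := a / R - t / R) (s0 := s0 (a / R) (t / R) (bb t) (1 / R) (cc t)) (x := xx t)
    (by norm_num) (by norm_num) hδ2 hcost hy1 hy2 hx0 hx76 hx35 hh0 hh3 hnb hτb hζ0 hζ1 hy3 rfl rfl
  have hdual := hAD (1 / 100000000000) y
    (|hh t * sN (a / R) (t / R) (xx t) (bb t) (1 / R) (cc t) +
      hh t * sT (a / R) (t / R) (xx t)| / 2 + ζ * hh t)
    (|hh t * sN (a / R) (t / R) (xx t) (bb t) (1 / R) (cc t) -
      hh t * sT (a / R) (t / R) (xx t)| / 2 + ζ * hh t) α β (by norm_num) (by norm_num) hy1 hα hβ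
  rw [abs_of_nonneg (a := |hh t * sN (a / R) (t / R) (xx t) (bb t) (1 / R) (cc t) +
      hh t * sT (a / R) (t / R) (xx t)| / 2 + ζ * hh t) (by positivity),
    abs_of_nonneg (a := |hh t * sN (a / R) (t / R) (xx t) (bb t) (1 / R) (cc t) -
      hh t * sT (a / R) (t / R) (xx t)| / 2 + ζ * hh t) (by positivity)] at hdual
  rw [q1, q2, q3]
  have e1 : (1 / R) ^ 2 + (t / R) ^ 2 = (1 + t ^ 2) / R ^ 2 := by
    field_simp
  have e2 : a / R - t / R = (a - t) / R := by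
    rw [sub_div]
  rw [e1, e2] at hcore
  have hS0 : 0 ≤ ((1 + t ^ 2) / R ^ 2) ^ 2 := by positivity
  have h2 : 0 < hh t ^ 2 := by positivity
  have h3 : 0 ≤ hh t ^ 2 * ((1 + t ^ 2) / R ^ 2) ^ 2 := by positivity
  have h4 : 0 ≤ hh t ^ 2 * ζ := by positivity
  have h5 : 0 ≤ C1 * (hh t ^ 2 * ζ) := by positivity
  linarith

end Pool.Agent.Work.MP_85f2da_an
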