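import Pool.Agent.Work.MP_85f2da_an.StmtsB

set_option autoImplicit false

/-!
# MP_85f2da_an: Q4, scalar estimates
-/

open MeasureTheory Filter Set Metric
open scoped ENNReal Topology ContDiff Nat

namespace Pool.Agent.Work.MP_85f2da_an

private lemma q4_pe (k : ℕ) {c : ℝ} (hc : 0 < c) :
    ∃ K : ℝ, 0 < K ∧ ∀ x : ℝ, 0 ≤ x → (1 + x) ^ k ≤ K * Real.exp (c * x) := by
  refine ⟨(k ! : ℝ) / c ^ k * Real.exp c, by positivity, ?_⟩
  intro x hx
  have h := Real.pow_div_factorial_le_exp (c * (1 + x)) (by positivity) k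
  have hk : (0 : ℝ) < (k ! : ℝ) := by exact_mod_cast Nat.factorial_pos k
  have hck : 0 < c ^ k := by positivity
  rw [div_le_iff₀ hk, mul_pow] at h
  have e1 : Real.exp (c * (1 + x)) = Real.exp c * Real.exp (c * x) := by
    rw [← Real.exp_add]; ring_nf
  rw [e1] at h
  have h2 : (1 + x) ^ k ≤ (Real.exp c * Real.exp (c * x) * (k ! : ℝ)) / c ^ k := by
    rw [le_div_iff₀ hck]; linarith
  calc (1 + x) ^ k ≤ (Real.exp c * Real.exp (c * x) * (k ! : ℝ)) / c ^ k := h2
    _ = (k ! : ℝ) / c ^ k * Real.exp c * Real.exp (c * x) := by ring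

private lemma q4_H (hB : BHh) (t : ℝ) : 0 < hh t ^ 2 ∧ hh t ^ 2 ≤ Real.exp (-(2 * |t|)) := by
  obtain ⟨h0, -, h2, -⟩ := hB t
  refine ⟨by positivity, ?_⟩
  have hpi : 2 / Real.pi ≤ 1 := by
    rw [div_le_one Real.pi_pos]; linarith [Real.pi_gt_three]
  have h3 : hh t ≤ Real.exp (-|t|) := by
    refine h2.trans ?_
    have := Real.exp_pos (-|t|)
    nlinarith
  have e : Real.exp (-(2 * |t|)) = Real.exp (-|t|) ^ 2 := by
    rw [← Real.exp_nat_mul]; norm_num
  rw [e]
  exact pow_le_pow_left₀ h0.le h3 2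

private lemma q4_Hk (hB : BHh) (k : ℕ) : ∃ K : ℝ, 0 < K ∧ ∀ t : ℝ,
    hh t ^ 2 * (1 + |t|) ^ k ≤ K := by
  obtain ⟨K, hK, h⟩ := q4_pe k (c := 2) (by norm_num)
  refine ⟨K, hK, fun t => ?_⟩
  obtain ⟨h0, h1⟩ := q4_H hB t
  have h2 := h |t| (abs_nonneg t)
  calc hh t ^ 2 * (1 + |t|) ^ k
      ≤ Real.exp (-(2 * |t|)) * (K * Real.exp (2 * |t|)) :=
        mul_le_mul h1 h2 (by positivity) (Real.exp_pos _).le
    _ = K * (Real.exp (-(2 * |t|)) * Real.exp (2 * |t|)) := by ring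
    _ = K := by rw [← Real.exp_add]; simp

private lemma q4_sq (t : ℝ) : 1 + t ^ 2 ≤ (1 + |t|) ^ 2 := by
  have h1 := abs_nonneg t
  have h2 := sq_abs t
  nlinarith

/-- Q4 -/
theorem qScal : BHh → QScal := by
  intro hB C η hC hη
  obtain ⟨K6, hK6, h6⟩ := q4_Hk hB 6
  obtain ⟨K8, hK8, h8⟩ := q4_Hk hB 8
  obtain ⟨K12, hK12, h12⟩ := q4_Hk hB 12
  obtain ⟨K14, hK14, h14⟩ := q4_Hk hB 14
  obtain ⟨L1, hL1, hL1'⟩ := q4_pe 4 (c := 1) (by norm_num)
  obtain ⟨L2, hL2, hL2'⟩ := q4_pe 4 (c := 1 / 2) (by norm_num)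
  -- constants
  obtain ⟨A1, hA1⟩ : ∃ A : ℝ, A = C * L2 * Real.exp (3 / 2) + 25 * C ^ 3 * K12 := ⟨_, rfl⟩
  obtain ⟨A2, hA2⟩ : ∃ A : ℝ, A = C * K14 / η ^ 8 := ⟨_, rfl⟩
  obtain ⟨A3, hA3⟩ : ∃ A : ℝ, A = C ^ 2 * K8 / η := ⟨_, rfl⟩
  obtain ⟨A5, hA5⟩ : ∃ A : ℝ, A = C * L1 := ⟨_, rfl⟩
  have p1 : 0 < A1 := by rw [hA1]; positivity
  have p2 : 0 < A2 := by rw [hA2]; positivity
  have p3 : 0 < A3 := by rw [hA3]; positivity
  have p5 : 0 < A5 := by rw [hA5]; positivity
  refine ⟨A1 + A2 + A3 + K6 + A5, by positivity, ?_⟩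
  intro R a t hR ha
  have hR0 : 0 < R := by linarith
  obtain ⟨H0, H1⟩ := q4_H hB t
  have hxn := abs_nonneg t
  have hsq := q4_sq t
  have hea := Real.exp_pos (-|a|)
  have hone : 0 < 1 + t ^ 2 := by positivity
  refine ⟨?_, ?_, ?_, ?_, ?_⟩
  · -- (1)
    have key : hh t ^ 2 * (C * ((1 + t ^ 2) / R ^ 2) ^ 2 - 1 / 5 * ((a - t) / R) ^ 2)
        ≤ A1 * (Real.exp (-|a|) / R ^ 4 + 1 / R ^ 8) := by
      by_cases hc : 2 / 3 * |a| - 1 ≤ |t|
      · have q1 : hh t ^ 2 * (1 + t ^ 2) ^ 2 ≤ L2 * Real.exp (3 / 2) * Real.exp (-|a|) := by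
          have q2 : (1 + t ^ 2) ^ 2 ≤ L2 * Real.exp (1 / 2 * |t|) := by
            refine le_trans ?_ (hL2' |t| hxn)
            calc (1 + t ^ 2) ^ 2 ≤ ((1 + |t|) ^ 2) ^ 2 := pow_le_pow_left₀ hone.le hsq 2
              _ = (1 + |t|) ^ 4 := by ring
          calc hh t ^ 2 * (1 + t ^ 2) ^ 2
              ≤ Real.exp (-(2 * |t|)) * (L2 * Real.exp (1 / 2 * |t|)) :=
                mul_le_mul H1 q2 (by positivity) (Real.exp_pos _).le
            _ = L2 * (Real.exp (-(2 * |t|)) * Real.exp (1 / 2 * |t|)) := by ring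
            _ = L2 * Real.exp (-(3 / 2 * |t|)) := by
                rw [← Real.exp_add]; ring_nf
            _ ≤ L2 * Real.exp (3 / 2 + -|a|) := by
                refine mul_le_mul_of_nonneg_left ?_ hL2.le
                apply Real.exp_le_exp.mpr
                linarith
            _ = L2 * Real.exp (3 / 2) * Real.exp (-|a|) := by
                rw [Real.exp_add]; ring
        have q3 : hh t ^ 2 * (C * ((1 + t ^ 2) / R ^ 2) ^ 2)
            ≤ C * L2 * Real.exp (3 / 2) * (Real.exp (-|a|) / R ^ 4) := by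
          have e1 : hh t ^ 2 * (C * ((1 + t ^ 2) / R ^ 2) ^ 2)
              = C / R ^ 4 * (hh t ^ 2 * (1 + t ^ 2) ^ 2) := by
            rw [div_pow]; ring
          rw [e1]
          calc C / R ^ 4 * (hh t ^ 2 * (1 + t ^ 2) ^ 2)
              ≤ C / R ^ 4 * (L2 * Real.exp (3 / 2) * Real.exp (-|a|)) :=
                mul_le_mul_of_nonneg_left q1 (by positivity)
            _ = C * L2 * Real.exp (3 / 2) * (Real.exp (-|a|) / R ^ 4) := by ring
        have q4 : 0 ≤ hh t ^ 2 * (1 / 5 * ((a - t) / R) ^ 2) := by positivity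
        have q5 : C * L2 * Real.exp (3 / 2) * (Real.exp (-|a|) / R ^ 4)
            ≤ A1 * (Real.exp (-|a|) / R ^ 4 + 1 / R ^ 8) := by
          apply mul_le_mul
          · rw [hA1]
            have : 0 ≤ 25 * C ^ 3 * K12 := by positivity
            linarith
          · have : 0 ≤ 1 / R ^ 8 := by positivity
            linarith
          · positivity
          · exact p1.le
        have e2 : hh t ^ 2 * (C * ((1 + t ^ 2) / R ^ 2) ^ 2 - 1 / 5 * ((a - t) / R) ^ 2)
            = hh t ^ 2 * (C * ((1 + t ^ 2) / R ^ 2) ^ 2)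
              - hh t ^ 2 * (1 / 5 * ((a - t) / R) ^ 2) := by ring
        rw [e2]
        linarith
      · push Not at hc
        have hat : 1 ≤ |a - t| := by
          have h1 : |a| - |t| ≤ |a - t| := abs_sub_abs_le_abs_sub a t
          have h2 := abs_nonneg a
          linarith
        have hat2 : 1 ≤ (a - t) ^ 2 := by
          have : 1 ≤ |a - t| ^ 2 := by nlinarith
          rwa [sq_abs] at this
        by_cases hc2 : 5 * C * (1 + t ^ 2) ^ 2 ≤ R ^ 2
        · have q1 : C * ((1 + t ^ 2) / R ^ 2) ^ 2 - 1 / 5 * ((a - t) / R) ^ 2 ≤ 0 := by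
            have e1 : C * ((1 + t ^ 2) / R ^ 2) ^ 2 - 1 / 5 * ((a - t) / R) ^ 2
                = (5 * C * (1 + t ^ 2) ^ 2 - R ^ 2 * (a - t) ^ 2) / (5 * R ^ 4) := by
              field_simp
            rw [e1]
            apply div_nonpos_of_nonpos_of_nonneg _ (by positivity)
            nlinarith [sq_nonneg R, mul_nonneg (sq_nonneg R) (sub_nonneg.mpr hat2)]
          have q2 : hh t ^ 2 * (C * ((1 + t ^ 2) / R ^ 2) ^ 2 - 1 / 5 * ((a - t) / R) ^ 2) ≤ 0 :=
            mul_nonpos_of_nonneg_of_nonpos H0.le q1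
          have q3 : 0 ≤ A1 * (Real.exp (-|a|) / R ^ 4 + 1 / R ^ 8) := by positivity
          linarith
        · push Not at hc2
          have q1 : hh t ^ 2 * (C * ((1 + t ^ 2) / R ^ 2) ^ 2) ≤ 25 * C ^ 3 * K12 * (1 / R ^ 8) := by
            have e1 : hh t ^ 2 * (C * ((1 + t ^ 2) / R ^ 2) ^ 2)
                = hh t ^ 2 * (C * (1 + t ^ 2) ^ 2) * R ^ 4 / R ^ 8 := by
              field_simp
            rw [e1, mul_one_div]
            apply div_le_div_of_nonneg_right _ (by positivity)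
            have r1 : R ^ 4 ≤ (5 * C * (1 + t ^ 2) ^ 2) ^ 2 := by
              calc R ^ 4 = (R ^ 2) ^ 2 := by ring
                _ ≤ _ := pow_le_pow_left₀ (by positivity) hc2.le 2
            have r2 : (1 + t ^ 2) ^ 6 ≤ (1 + |t|) ^ 12 := by
              calc (1 + t ^ 2) ^ 6 ≤ ((1 + |t|) ^ 2) ^ 6 := pow_le_pow_left₀ hone.le hsq 6
                _ = (1 + |t|) ^ 12 := by ring
            calc hh t ^ 2 * (C * (1 + t ^ 2) ^ 2) * R ^ 4
                ≤ hh t ^ 2 * (C * (1 + t ^ 2) ^ 2) * (5 * C * (1 + t ^ 2) ^ 2) ^ 2 :=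
                  mul_le_mul_of_nonneg_left r1 (by positivity)
              _ = 25 * C ^ 3 * (hh t ^ 2 * (1 + t ^ 2) ^ 6) := by ring
              _ ≤ 25 * C ^ 3 * (hh t ^ 2 * (1 + |t|) ^ 12) := by
                  apply mul_le_mul_of_nonneg_left _ (by positivity)
                  exact mul_le_mul_of_nonneg_left r2 H0.le
              _ ≤ 25 * C ^ 3 * K12 := mul_le_mul_of_nonneg_left (h12 t) (by positivity)
          have q4 : 0 ≤ hh t ^ 2 * (1 / 5 * ((a - t) / R) ^ 2) := by positivity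
          have q5 : 25 * C ^ 3 * K12 * (1 / R ^ 8)
              ≤ A1 * (Real.exp (-|a|) / R ^ 4 + 1 / R ^ 8) := by
            apply mul_le_mul
            · rw [hA1]
              have : 0 ≤ C * L2 * Real.exp (3 / 2) := by positivity
              linarith
            · have : 0 ≤ Real.exp (-|a|) / R ^ 4 := by positivity
              linarith
            · positivity
            · exact p1.le
          have e2 : hh t ^ 2 * (C * ((1 + t ^ 2) / R ^ 2) ^ 2 - 1 / 5 * ((a - t) / R) ^ 2)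
              = hh t ^ 2 * (C * ((1 + t ^ 2) / R ^ 2) ^ 2)
                - hh t ^ 2 * (1 / 5 * ((a - t) / R) ^ 2) := by ring
          rw [e2]
          linarith
    refine key.trans (mul_le_mul_of_nonneg_right (by linarith) (by positivity))
  · -- (2)
    intro ht
    have key : C * (hh t ^ 2 * (1 + |t|) ^ 6) ≤ A2 * (1 / R ^ 8) := by
      have e1 : A2 * (1 / R ^ 8) = C * K14 / (η * R) ^ 8 := by
        rw [hA2]; field_simp
      rw [e1, le_div_iff₀ (by positivity)]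
      have r1 : (η * R) ^ 8 ≤ (1 + |t|) ^ 8 := by
        apply pow_le_pow_left₀ (by positivity)
        linarith
      calc C * (hh t ^ 2 * (1 + |t|) ^ 6) * (η * R) ^ 8
          ≤ C * (hh t ^ 2 * (1 + |t|) ^ 6) * (1 + |t|) ^ 8 :=
            mul_le_mul_of_nonneg_left r1 (by positivity)
        _ = C * (hh t ^ 2 * (1 + |t|) ^ 14) := by ring
        _ ≤ C * K14 := mul_le_mul_of_nonneg_left (h14 t) hC.le
    refine key.trans (mul_le_mul_of_nonneg_right (by linarith) (by positivity))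
  · -- (3)
    have key : hh t ^ 2 * (C * ((1 + t ^ 2) / R ^ 2) ^ 2 - η) ≤ A3 * (1 / R ^ 8) := by
      by_cases hc : C * ((1 + t ^ 2) / R ^ 2) ^ 2 ≤ η
      · have q1 : hh t ^ 2 * (C * ((1 + t ^ 2) / R ^ 2) ^ 2 - η) ≤ 0 :=
          mul_nonpos_of_nonneg_of_nonpos H0.le (by linarith)
        have q2 : 0 ≤ A3 * (1 / R ^ 8) := by positivity
        linarith
      · push Not at hc
        have q0 : η * R ^ 4 < C * (1 + t ^ 2) ^ 2 := by
          have e1 : C * ((1 + t ^ 2) / R ^ 2) ^ 2 = C * (1 + t ^ 2) ^ 2 / R ^ 4 := by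
            rw [div_pow]; ring
          rw [e1, lt_div_iff₀ (by positivity)] at hc
          exact hc
        have q1 : hh t ^ 2 * (C * ((1 + t ^ 2) / R ^ 2) ^ 2) ≤ A3 * (1 / R ^ 8) := by
          have e1 : hh t ^ 2 * (C * ((1 + t ^ 2) / R ^ 2) ^ 2)
              = hh t ^ 2 * (C * (1 + t ^ 2) ^ 2) * (η * R ^ 4) / (η * R ^ 8) := by
            field_simp
          have e2 : A3 * (1 / R ^ 8) = C ^ 2 * K8 / (η * R ^ 8) := by
            rw [hA3]; field_simp
          rw [e1, e2]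
          apply div_le_div_of_nonneg_right _ (by positivity)
          have r2 : (1 + t ^ 2) ^ 4 ≤ (1 + |t|) ^ 8 := by
            calc (1 + t ^ 2) ^ 4 ≤ ((1 + |t|) ^ 2) ^ 4 := pow_le_pow_left₀ hone.le hsq 4
              _ = (1 + |t|) ^ 8 := by ring
          calc hh t ^ 2 * (C * (1 + t ^ 2) ^ 2) * (η * R ^ 4)
              ≤ hh t ^ 2 * (C * (1 + t ^ 2) ^ 2) * (C * (1 + t ^ 2) ^ 2) :=
                mul_le_mul_of_nonneg_left q0.le (by positivity)
            _ = C ^ 2 * (hh t ^ 2 * (1 + t ^ 2) ^ 4) := by ring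
            _ ≤ C ^ 2 * (hh t ^ 2 * (1 + |t|) ^ 8) := by
                apply mul_le_mul_of_nonneg_left _ (by positivity)
                exact mul_le_mul_of_nonneg_left r2 H0.le
            _ ≤ C ^ 2 * K8 := mul_le_mul_of_nonneg_left (h8 t) (by positivity)
        have q4 : 0 ≤ hh t ^ 2 * η := by positivity
        have e2 : hh t ^ 2 * (C * ((1 + t ^ 2) / R ^ 2) ^ 2 - η)
            = hh t ^ 2 * (C * ((1 + t ^ 2) / R ^ 2) ^ 2) - hh t ^ 2 * η := by ring
        rw [e2]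
        linarith
    refine key.trans (mul_le_mul_of_nonneg_right (by linarith) (by positivity))
  · -- (4)
    refine (h6 t).trans (by linarith)
  · -- (5)
    have key : C * (hh a ^ 2 * ((1 + a ^ 2) / R ^ 2) ^ 2) ≤ A5 * (Real.exp (-|a|) / R ^ 4) := by
      obtain ⟨G0, G1⟩ := q4_H hB a
      have q2 : (1 + a ^ 2) ^ 2 ≤ L1 * Real.exp (1 * |a|) := by
        refine le_trans ?_ (hL1' |a| (abs_nonneg a))
        calc (1 + a ^ 2) ^ 2 ≤ ((1 + |a|) ^ 2) ^ 2 :=
              pow_le_pow_left₀ (by positivity) (q4_sq a) 2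
          _ = (1 + |a|) ^ 4 := by ring
      have q1 : hh a ^ 2 * (1 + a ^ 2) ^ 2 ≤ L1 * Real.exp (-|a|) := by
        calc hh a ^ 2 * (1 + a ^ 2) ^ 2
            ≤ Real.exp (-(2 * |a|)) * (L1 * Real.exp (1 * |a|)) :=
              mul_le_mul G1 q2 (by positivity) (Real.exp_pos _).le
          _ = L1 * (Real.exp (-(2 * |a|)) * Real.exp (1 * |a|)) := by ring
          _ = L1 * Real.exp (-|a|) := by
              rw [← Real.exp_add]; ring_nf
      have e1 : C * (hh a ^ 2 * ((1 + a ^ 2) / R ^ 2) ^ 2)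
          = C / R ^ 4 * (hh a ^ 2 * (1 + a ^ 2) ^ 2) := by
        rw [div_pow]; ring
      rw [e1]
      calc C / R ^ 4 * (hh a ^ 2 * (1 + a ^ 2) ^ 2)
          ≤ C / R ^ 4 * (L1 * Real.exp (-|a|)) := mul_le_mul_of_nonneg_left q1 (by positivity)
        _ = A5 * (Real.exp (-|a|) / R ^ 4) := by rw [hA5]; ring
    refine key.trans (mul_le_mul_of_nonneg_right (by linarith) (by positivity))

end Pool.Agent.Work.MP_85f2da_an
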