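import Pool.Agent.Work.MP_85f2da_an.Bd.B06
import Pool.Agent.Work.MP_85f2da_an.Bd.B05
import Pool.Agent.Work.MP_85f2da_an.Bd.B04
import Pool.Agent.Work.MP_85f2da_an.Bd.B02
import Pool.Agent.Work.MP_85f2da_an.Bd.B03
import Pool.Agent.Work.MP_85f2da_an.QMain
import Pool.Agent.Work.MP_85f2da_an.QScal
import Pool.Agent.Work.MP_85f2da_an.CalPf

set_option autoImplicit false

/-!
# MP_85f2da_an: everything assembled
-/

namespace Pool.Agent.Work.MP_85f2da_an

theorem aHessAll : AHess := aHess aSmooth

theorem aDatExAll : ADatEx := aDatEx aSmooth aHessAll aDat aPot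

theorem bBdAll : BBd := bBd bHh bCoef

theorem bContAll : BCont := bCont bHh bBdAll bProf

theorem bPrimAll : BPrim := bPrim bContAll bProf bDer bBdAll bHh

theorem qMainExAll (hF : PFar) (hN : PNear) : QMainEx :=
  qMainEx aDual aCost hF hN qRed bCoef bHh

theorem qFinPAll : QFinP := qFinP (qCrude aDual bBdAll bHh) (qScal bHh) qRed pDiag bCoef bHh

theorem cWAll : CW := cW bProf

theorem cCalAll : CCal := cCal bPrimAll bProf bHh cDiv cCut (cBd cDiv) cWAll

theorem cMainAll : CMain :=
  cMain cNullLag cLip cCalAll cNull cInt cWAll bPrimAll bContAll bHh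

theorem pFarAll : PFar := pFar pMac

theorem cDecayAll : CDecay := cDecay cNullLag cWAll bProf bHh

theorem eFourBAll : EFourB :=
  eFourB aDatExAll (qMainExAll pFarAll pNear) qFinPAll cCalAll cMainAll cDecayAll cWAll partDAll
    eLim eCross

theorem nFinalBAll : NFinalB := nFinalB eFourBAll (nLag aSmooth aHessAll aPot) nMin

end Pool.Agent.Work.MP_85f2da_an
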