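import Mathlib

set_option autoImplicit false

/-!
# MP_85f2da_an: definitions

Part D (existence and regularity of minimisers) is in general dimension `d`; parts A, B, C
(the Lagrangian and the calibration) are in dimension 4.
-/

open MeasureTheory Filter Set Metric
open scoped ENNReal Topology ContDiff

namespace Pool.Agent.Work.MP_85f2da_an

variable {d : ℕ}

/-- the vector of the partial derivatives -/
noncomputable def gr (u : (Fin d → ℝ) → ℝ) (x : Fin d → ℝ) : Fin d → ℝ :=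
  fun i => fderiv ℝ u x (Pi.single i (1 : ℝ))

/-- scalar product -/
def dot (a b : Fin d → ℝ) : ℝ := ∑ i, a i * b i

/-- squared euclidean norm -/
def sq (a : Fin d → ℝ) : ℝ := ∑ i, a i ^ 2

/-- Lipschitz with some constant -/
def Lip (u : (Fin d → ℝ) → ℝ) : Prop := ∃ K, LipschitzWith K u

/-- divergence of a vector field -/
noncomputable def dv (E : (Fin d → ℝ) → (Fin d → ℝ)) (x : Fin d → ℝ) : ℝ :=
  ∑ i, fderiv ℝ (fun y => E y i) x (Pi.single i (1 : ℝ))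

/-- local Sobolev pairs: `u` is the limit in `L^2_loc` of Lipschitz functions whose gradients
converge to `g` in `L^2_loc` -/
structure LSP (u : (Fin d → ℝ) → ℝ) (g : (Fin d → ℝ) → (Fin d → ℝ)) : Prop where
  mu : AEStronglyMeasurable u volume
  mg : AEStronglyMeasurable g volume
  app : ∃ U : ℕ → (Fin d → ℝ) → ℝ, (∀ j, Lip (U j)) ∧ ∀ R : ℝ,
    Tendsto (fun j => ∫⁻ x in closedBall 0 R,
      ENNReal.ofReal ((U j x - u x) ^ 2 + sq (gr (U j) x - g x))) atTop (𝓝 0)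

/-- data of an autonomous Lagrangian `Λ(p) + F(v)` -/
structure Dat (d : ℕ) where
  Lam : (Fin d → ℝ) → ℝ
  dL : (Fin d → ℝ) → (Fin d → ℝ)
  F : ℝ → ℝ
  dF : ℝ → ℝ
  m0 : ℝ
  M0 : ℝ
  m0_pos : 0 < m0
  M0_pos : 0 < M0
  Lam_cont : Continuous Lam
  dL_cont : Continuous dL
  F_cont : Continuous F
  dF_cont : Continuous dF
  Lam_zero : Lam 0 = 0
  dL_zero : dL 0 = 0
  Lam_lower : ∀ p, m0 / 2 * sq p ≤ Lam p
  Lam_upper : ∀ p, Lam p ≤ M0 / 2 * sq p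
  Lam_mid : ∀ p q, Lam ((1 / 2 : ℝ) • (p + q)) ≤ (Lam p + Lam q) / 2 - m0 / 8 * sq (p - q)
  Lam_taylor : ∀ p ξ, |Lam (p + ξ) - Lam p - dot (dL p) ξ| ≤ M0 / 2 * sq ξ
  mono : ∀ p q, m0 * sq (p - q) ≤ dot (dL p - dL q) (p - q)
  dL_lip : ∀ p q, sq (dL p - dL q) ≤ M0 ^ 2 * sq (p - q)
  F_nonneg : ∀ v, 0 ≤ F v
  F_le : ∀ v, F v ≤ M0
  F_zero : F 0 = 0
  F_one : F 1 = 0
  F_taylor : ∀ v s, |F (v + s) - F v - dF v * s| ≤ M0 / 2 * s ^ 2
  dF_lip : ∀ v w, |dF v - dF w| ≤ M0 * |v - w|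
  dF_le : ∀ v, |dF v| ≤ M0

/-- the Lagrangian of the data -/
def Dat.L (D : Dat d) (v : ℝ) (p : Fin d → ℝ) : ℝ := D.Lam p + D.F v

/-- minimality among Lipschitz functions, autonomous case -/
def MinAut (D : Dat d) (u : (Fin d → ℝ) → ℝ) : Prop :=
  ∀ φ : (Fin d → ℝ) → ℝ, Lip φ → ∀ r : ℝ, (∀ x, x ∉ closedBall 0 r → φ x = 0) →
    ∫ x in closedBall 0 r, D.L (u x) (gr u x)
      ≤ ∫ x in closedBall 0 r, D.L (u x + φ x) (gr (fun y => u y + φ y) x)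

/-- Lipschitz competitors with values in `[0,1]` and the boundary values `w` outside the cube of
half side `ρ` -/
structure Comp (w : (Fin d → ℝ) → ℝ) (ρ : ℝ) (U : (Fin d → ℝ) → ℝ) : Prop where
  lip : Lip U
  nonneg : ∀ x, 0 ≤ U x
  le_one : ∀ x, U x ≤ 1
  out : ∀ x, x ∉ closedBall 0 ρ → U x = w x

/-- a minimiser in the cube of half side `ρ` -/
structure BMin (D : Dat d) (w : (Fin d → ℝ) → ℝ) (ρ : ℝ) (u : (Fin d → ℝ) → ℝ)
    (g : (Fin d → ℝ) → (Fin d → ℝ)) : Prop where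
  lsp : LSP u g
  nonneg : ∀ x, 0 ≤ u x
  le_one : ∀ x, u x ≤ 1
  out : ∀ x, x ∉ closedBall 0 ρ → u x = w x
  outg : ∀ᵐ x, x ∉ closedBall 0 ρ → g x = gr w x
  min : ∀ φ : (Fin d → ℝ) → ℝ, Lip φ → (∀ x, x ∉ closedBall 0 ρ → φ x = 0) →
    ∫ x in closedBall 0 ρ, D.L (u x) (g x)
      ≤ ∫ x in closedBall 0 ρ, D.L (u x + φ x) (g x + gr φ x)
  app : ∀ ε : ℝ, 0 < ε → ∃ U, Comp w ρ U ∧
    (∫ x in closedBall 0 ρ, (U x - u x) ^ 2) ≤ ε ∧
    (∫ x in closedBall 0 ρ, D.L (U x) (gr U x)) ≤ (∫ x in closedBall 0 ρ, D.L (w x) (gr w x)) + ε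

/-! ### The Lagrangian in dimension 4 -/

/-- `|p_x|^2` -/
def A1 (p : Fin 4 → ℝ) : ℝ := p 0 ^ 2 + p 1 ^ 2

/-- `|p_y|^2` -/
def A2 (p : Fin 4 → ℝ) : ℝ := p 2 ^ 2 + p 3 ^ 2

/-- the anisotropic part -/
noncomputable def Lam4 (δ : ℝ) (p : Fin 4 → ℝ) : ℝ :=
  (A1 p + A2 p) / 4
    + 99 / 400 * (Real.sqrt ((A1 p - A2 p) ^ 2 + δ ^ 2 * (1 + A1 p + A2 p) ^ 2)
      - δ * (1 + A1 p + A2 p))

/-- `h(v) = sin(pi v)/pi` -/
noncomputable def hv (v : ℝ) : ℝ := Real.sin (Real.pi * v) / Real.pi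

/-- `F = h^2/2` -/
noncomputable def Fv (v : ℝ) : ℝ := hv v ^ 2 / 2

/-! ### Functions of the level, in the variable `τ`; `v = gv τ` -/

/-- the profile -/
noncomputable def gv (t : ℝ) : ℝ := 2 / Real.pi * Real.arctan (Real.exp t)

/-- the inverse of the profile -/
noncomputable def tauv (v : ℝ) : ℝ := Real.log (Real.tan (Real.pi * v / 2))

noncomputable def hh (t : ℝ) : ℝ := 1 / (Real.pi * Real.cosh t)

noncomputable def xx (t : ℝ) : ℝ := 7 / 6 * (1 - Real.tanh t ^ 6)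

noncomputable def bb (t : ℝ) : ℝ :=
  2 / 9 * Real.tanh t * (1 + Real.tanh t ^ 2 + Real.tanh t ^ 4)

noncomputable def cc (t : ℝ) : ℝ :=
  2 * Real.cosh t ^ 2 * (Real.log (2 * Real.cosh t) - t * Real.tanh t)

/-- the six level densities, as functions of `τ` -/
noncomputable def kt (i : Fin 6) (t : ℝ) : ℝ :=
  hh t * (![1, xx t, 8 / 3 * xx t * t, -(t ^ 2 * (4 / 3 * xx t + 1)),
    -2 * bb t + 8 / 3 * t * (1 - xx t) - 2 * t,
    -cc t + 2 * t ^ 2 + 2 * t * bb t - 4 / 3 * t ^ 2 * (1 - xx t)] : Fin 6 → ℝ) i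

/-- the level densities as functions of `v`, extended by zero -/
noncomputable def kp (i : Fin 6) (v : ℝ) : ℝ := if 0 < v ∧ v < 1 then kt i (tauv v) else 0

/-- their primitives -/
noncomputable def kk (i : Fin 6) (v : ℝ) : ℝ := ∫ y in (0 : ℝ)..v, kp i y

/-! ### Fields on `ℝ² × ℝ²` -/

noncomputable def nx (z : Fin 4 → ℝ) : ℝ := Real.sqrt (z 0 ^ 2 + z 1 ^ 2)

noncomputable def ny (z : Fin 4 → ℝ) : ℝ := Real.sqrt (z 2 ^ 2 + z 3 ^ 2)

noncomputable def Rz (z : Fin 4 → ℝ) : ℝ := nx z + ny z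

noncomputable def az (z : Fin 4 → ℝ) : ℝ := nx z - ny z

/-- normal components of the six fields, as functions of `(R, a)` -/
noncomputable def fN (i : Fin 6) (R a : ℝ) : ℝ :=
  (![(8 * (1 - (a / R) ^ 2) ^ 2 - 5 * (1 - (a / R) ^ 2) ^ 3) / 3, 0,
    a / R ^ 2 * (6 * (1 - (a / R) ^ 2) - 5 * (1 - (a / R) ^ 2) ^ 2),
    (6 * (1 - (a / R) ^ 2) - 5 * (1 - (a / R) ^ 2) ^ 2) / R ^ 2,
    a / R ^ 2 * (1 - (a / R) ^ 2) ^ 2,
    (1 - (a / R) ^ 2) ^ 2 / R ^ 2] : Fin 6 → ℝ) i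

/-- tangential components of the six fields -/
noncomputable def fT (i : Fin 6) (R a : ℝ) : ℝ :=
  (![0, 8 / 3 * (a / R) * (1 - (a / R) ^ 2) ^ 2,
    -((1 - (a / R) ^ 2) ^ 2 - 6 * (a / R) ^ 2 * (1 - (a / R) ^ 2)) / R,
    6 * a / R ^ 3 * (1 - (a / R) ^ 2), 0, 0] : Fin 6 → ℝ) i

/-- divergences of the six fields -/
noncomputable def fD (i : Fin 6) (R a : ℝ) : ℝ :=
  (![8 / 3 * (a / R ^ 2) * (1 - (a / R) ^ 2) * (5 * (1 - (a / R) ^ 2) - 6),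
    -(8 / 3 * (a / R ^ 2) * (1 - (a / R) ^ 2) * (5 * (1 - (a / R) ^ 2) - 6)), 0, 0,
    ((1 - (a / R) ^ 2) ^ 2 - 6 * (a / R) ^ 2 * (1 - (a / R) ^ 2)) / R ^ 2,
    -(6 * a / R ^ 4 * (1 - (a / R) ^ 2))] : Fin 6 → ℝ) i

/-- the vector field with components `N`, `T` at `z` -/
noncomputable def vf (N T : ℝ) (z : Fin 4 → ℝ) : Fin 4 → ℝ :=
  ![(N + T) / 2 / nx z * z 0, (N + T) / 2 / nx z * z 1,
    -((N - T) / 2 / ny z * z 2), -((N - T) / 2 / ny z * z 3)]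

/-- the six vector fields -/
noncomputable def Ez (i : Fin 6) (z : Fin 4 → ℝ) : Fin 4 → ℝ :=
  vf (fN i (Rz z) (az z)) (fT i (Rz z) (az z)) z

/-- the six vector fields, cut off near the origin -/
noncomputable def Ec (i : Fin 6) (z : Fin 4 → ℝ) : Fin 4 → ℝ :=
  Real.smoothTransition (Rz z - 1) • Ez i z

/-- the null Lagrangian -/
noncomputable def NN (z : Fin 4 → ℝ) (v : ℝ) (p : Fin 4 → ℝ) : ℝ :=
  ∑ i, (kp i v * dot (Ec i z) p + kk i v * dv (Ec i) z)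

/-- the error function -/
noncomputable def VV (z : Fin 4 → ℝ) : ℝ := Real.exp (-|az z|) / Rz z ^ 4 + 1 / Rz z ^ 8

/-- the boundary function `w` -/
noncomputable def wz (z : Fin 4 → ℝ) : ℝ := gv (az z)

/-- the primitive of `h`, `H(0) = 0` -/
noncomputable def Hv (v : ℝ) : ℝ := (1 - Real.cos (Real.pi * v)) / Real.pi ^ 2

end Pool.Agent.Work.MP_85f2da_an
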