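import Pool.Agent.Work.MP_85f2da_an.StmtsB

set_option autoImplicit false

/-!
# MP_85f2da_an, item E3: the four-dimensional result from the parts
-/

namespace Pool.Agent.Work.MP_85f2da_an

theorem eFour : ADatEx → QMainEx → QFinP → CCal → CMain → CDecay → CW → PartD → ELim → ECross →
    EFour := by
  intro hA hQ hQF hC hM hD hW hP hL hX
  obtain ⟨δ, hδ0, hδ1, hQM⟩ := hQ
  obtain ⟨D, hDL, hDF⟩ := hA δ hδ0 hδ1
  obtain ⟨C, hCM⟩ := hM δ hδ0 hδ1 (hC δ hδ0 hδ1 (hQF δ hδ0 hδ1 hQM))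
  obtain ⟨C', hC'⟩ := hD δ C hδ0
  obtain ⟨v, ρ, U, hv, hv01, hmin, hcomp, hen, hlim⟩ := hP 4 D wz (by norm_num) hW.1 hW.2.1
  have hadm : ∀ j, Adm δ (ρ j) (U j) := fun j => ⟨hcomp j, by
    have := hen j
    simp only [Dat.L, hDL, hDF] at this
    exact this⟩
  have hph : ∀ j, Phases C' (U j) := fun j => hC' (ρ j) (U j) (hadm j) (hCM (ρ j) (U j) (hadm j))
  have hphv : Phases C' v := hL C' U v (fun j => (hcomp j).lip) hv hph hlim
  obtain ⟨h1, h2⟩ := hX C' v hv hv01 hphv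
  exact ⟨δ, D, v, hδ0, hδ1, hDL, hDF, hv, hmin, h1, h2⟩

end Pool.Agent.Work.MP_85f2da_an
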